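import Pool.Agent.H622R2.MatGraph

/-!
Regular `k`-independent sets: definitions
-/

set_option autoImplicit false

namespace Pool.Agent.Q224.KI

open Pool.Agent.H622R2

/-- `S` is a regular `k`-independent set of `G`: every vertex of `S` has at most `k` neighbours in
`S`, and all vertices of `S` have the same degree in `G`. -/
def RegularKIndependent {V : Type} (G : SimpleGraph V) (k : ℕ) (S : Set V) : Prop :=
  (∀ v ∈ S, (G.neighborSet v ∩ S).ncard ≤ k) ∧
  ∀ v ∈ S, ∀ w ∈ S, (G.neighborSet v).ncard = (G.neighborSet w).ncard

/-- The question of reg-`k`MIS: does the graph with adjacency matrix `M` have a regular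
`k`-independent set with at least `p` vertices? -/
def Yes (k : ℕ) (I : List (List Bool) × ℕ) : Prop :=
  ∃ S : Set (Fin I.1.length), RegularKIndependent (matGraph I.1) k S ∧ I.2 ≤ S.ncard

/-- An input of reg-`k`MIS restricted to `r`-regular graphs: an `r`-regular graph and a number
`p ≥ 1`. -/
def IsInput (r : ℕ) (I : List (List Bool) × ℕ) : Prop :=
  (∀ v, ((matGraph I.1).neighborSet v).ncard = r) ∧ 1 ≤ I.2

/-- reg-`k`MIS restricted to `r`-regular graphs, as a language -/
def RegKMIS (k r : ℕ) (I : List (List Bool) × ℕ) : Prop := IsInput r I ∧ Yes k I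

end Pool.Agent.Q224.KI
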