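import Pool.Agent.Q229.TDS.Mem

/-!
Regular `k`-independent sets: definitions and simple facts
-/

set_option autoImplicit false
set_option linter.unusedSectionVars false

namespace Pool.Agent.Q224.KI

open Pool.Agent.NPC Pool.Agent.H622R2 Q229

/-- the number of neighbours of `v` -/
noncomputable def nd {V : Type} (G : SimpleGraph V) (v : V) : ℕ := (G.neighborSet v).ncard

open Classical in
theorem nd_eq_sum {V : Type} [Fintype V] (G : SimpleGraph V) (v : V) :
    nd G v = ∑ w, if G.Adj v w then 1 else 0 := by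
  unfold nd
  rw [← Finset.card_filter, ← Set.ncard_coe_finset]
  congr 1
  ext w
  simp

theorem nd_iso {V W : Type} {G : SimpleGraph V} {H : SimpleGraph W} (e : G ≃g H) (v : V) :
    nd H (e v) = nd G v := by
  unfold nd
  have : H.neighborSet (e v) = e '' G.neighborSet v := by
    ext w
    simp only [SimpleGraph.mem_neighborSet, Set.mem_image]
    constructor
    · intro h
      refine ⟨e.symm w, ?_, e.apply_symm_apply w⟩
      rw [← e.map_adj_iff, e.apply_symm_apply]
      exact h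
    · rintro ⟨u, hu, rfl⟩
      exact e.map_adj_iff.2 hu
  rw [this, Set.ncard_image_of_injective _ e.injective]

theorem nd_degL (M : List (List Bool)) (i : Fin M.length) :
    nd (matGraph M) i = TDS.degL M i := by
  classical
  rw [TDS.degL_eq, nd_eq_sum, ← Finset.card_filter, ← SimpleGraph.card_neighborFinset_eq_degree]
  congr 1
  ext w
  simp

open Classical in
/-- `S` is a `k`-independent set of `G` -/
def IsKI {V : Type} (G : SimpleGraph V) (k : ℕ) (S : Finset V) : Prop :=
  ∀ v ∈ S, (S.filter (G.Adj v)).card ≤ k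

/-- `G` has a `k`-independent set with at least `p` elements -/
def HasKI {V : Type} (G : SimpleGraph V) (k p : ℕ) : Prop := ∃ S : Finset V, IsKI G k S ∧ p ≤ S.card

/-- `G` has a dominating set with at most `p` elements -/
def HasDom {V : Type} (G : SimpleGraph V) (p : ℕ) : Prop :=
  ∃ D : Finset V, (∀ v, v ∈ D ∨ ∃ w ∈ D, G.Adj v w) ∧ D.card ≤ p

theorem hasKI_iso {V W : Type} {G : SimpleGraph V} {H : SimpleGraph W} (e : G ≃g H) {k p : ℕ}
    (h : HasKI G k p) : HasKI H k p := by
  classical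
  obtain ⟨S, hS, hp⟩ := h
  refine ⟨S.map e.toEquiv.toEmbedding, ?_, by rwa [Finset.card_map]⟩
  intro v hv
  rw [Finset.mem_map_equiv] at hv
  have h1 := hS _ hv
  refine le_trans (le_of_eq ?_) h1
  rw [← Finset.card_map e.toEquiv.toEmbedding]
  congr 1
  ext w
  simp only [Finset.mem_filter, Finset.mem_map_equiv]
  refine and_congr Iff.rfl ?_
  rw [← e.map_adj_iff]
  have h2 : e (e.toEquiv.symm v) = v := e.toEquiv.apply_symm_apply v
  have h3 : e (e.toEquiv.symm w) = w := e.toEquiv.apply_symm_apply w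
  rw [h2, h3]

theorem hasDom_iso {V W : Type} {G : SimpleGraph V} {H : SimpleGraph W} (e : G ≃g H) {p : ℕ}
    (h : HasDom G p) : HasDom H p := by
  classical
  obtain ⟨D, hD, hp⟩ := h
  refine ⟨D.map e.toEquiv.toEmbedding, ?_, by rwa [Finset.card_map]⟩
  intro v
  rcases hD (e.symm v) with h1 | ⟨w, hw, h1⟩
  · left
    rw [Finset.mem_map_equiv]
    exact h1
  · right
    refine ⟨e w, Finset.mem_map.2 ⟨w, hw, rfl⟩, ?_⟩
    rw [← e.map_adj_iff] at h1
    rwa [e.apply_symm_apply] at h1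

theorem hasKI_iso_iff {V W : Type} {G : SimpleGraph V} {H : SimpleGraph W} (e : G ≃g H) {k p : ℕ} :
    HasKI G k p ↔ HasKI H k p := ⟨hasKI_iso e, hasKI_iso e.symm⟩

theorem hasDom_iso_iff {V W : Type} {G : SimpleGraph V} {H : SimpleGraph W} (e : G ≃g H) {p : ℕ} :
    HasDom G p ↔ HasDom H p := ⟨hasDom_iso e, hasDom_iso e.symm⟩

/-! ### Two copies of a graph with fillers -/

section Reg

variable {V : Type} [Fintype V]

/-- the fillers -/
abbrev Pl (d : V → ℕ) : Type := (v : V) × Fin (d v)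

/-- the vertices of the regularised graph -/
abbrev RV (g : ℕ) (d : V → ℕ) : Type := (V × Bool) ⊕ (Pl d × Fin g)

/-- Two copies of `H`, and for every vertex `v` `d v` copies of the gadget, attached to the two
copies of `v`. -/
def RG (H : SimpleGraph V) (g : ℕ) (d : V → ℕ) (Γ : SimpleGraph (Fin g)) (a : Bool → Fin g) :
    SimpleGraph (RV g d) where
  Adj
  | Sum.inl x, Sum.inl y => x.2 = y.2 ∧ H.Adj x.1 y.1
  | Sum.inl x, Sum.inr q => q.1.1 = x.1 ∧ q.2 = a x.2
  | Sum.inr q, Sum.inl x => q.1.1 = x.1 ∧ q.2 = a x.2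
  | Sum.inr q, Sum.inr q' => q.1 = q'.1 ∧ Γ.Adj q.2 q'.2
  symm := ⟨by
    rintro (x | q) (y | q') h
    · exact ⟨h.1.symm, h.2.symm⟩
    · exact h
    · exact h
    · exact ⟨h.1.symm, h.2.symm⟩⟩
  loopless := ⟨by
    rintro (x | q) h
    · exact H.loopless.irrefl _ h.2
    · exact Γ.loopless.irrefl _ h.2⟩

variable (H : SimpleGraph V) {g : ℕ} {d : V → ℕ} (Γ : SimpleGraph (Fin g)) (a : Bool → Fin g)

theorem rg_ll (x y : V × Bool) : (RG H g d Γ a).Adj (Sum.inl x) (Sum.inl y) ↔
    x.2 = y.2 ∧ H.Adj x.1 y.1 := Iff.rfl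
theorem rg_lr (x : V × Bool) (q : Pl d × Fin g) : (RG H g d Γ a).Adj (Sum.inl x) (Sum.inr q) ↔
    q.1.1 = x.1 ∧ q.2 = a x.2 := Iff.rfl
theorem rg_rl (x : V × Bool) (q : Pl d × Fin g) : (RG H g d Γ a).Adj (Sum.inr q) (Sum.inl x) ↔
    q.1.1 = x.1 ∧ q.2 = a x.2 := Iff.rfl
theorem rg_rr (q q' : Pl d × Fin g) : (RG H g d Γ a).Adj (Sum.inr q) (Sum.inr q') ↔
    q.1 = q'.1 ∧ Γ.Adj q.2 q'.2 := Iff.rfl

theorem nd_l (v : V) (b : Bool) : nd (RG H g d Γ a) (Sum.inl (v, b)) = nd H v + d v := by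
  classical
  rw [nd_eq_sum, nd_eq_sum, Fintype.sum_sum_type]
  congr 1
  · simp only [rg_ll, Fintype.sum_prod_type]
    refine Finset.sum_congr rfl fun w _ => ?_
    simp only [Fintype.sum_bool]
    cases b <;> simp
  · simp only [rg_lr, Fintype.sum_prod_type, Fintype.sum_sigma]
    have h1 : ∀ u : V, (∑ f : Fin (d u), ∑ w : Fin g,
        if ((⟨u, f⟩ : Pl d).1 = v ∧ w = a b) then 1 else 0) = if u = v then d u else 0 := by
      intro u
      by_cases huv : u = v
      · simp [huv]
      · simp [huv]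
    rw [Finset.sum_congr rfl fun u _ => h1 u]
    simp

theorem nd_r (q : Pl d) (w : Fin g) :
    nd (RG H g d Γ a) (Sum.inr (q, w)) =
      nd Γ w + ((if w = a false then 1 else 0) + if w = a true then 1 else 0) := by
  classical
  rw [nd_eq_sum, nd_eq_sum, Fintype.sum_sum_type, add_comm]
  congr 1
  · simp only [rg_rr, Fintype.sum_prod_type]
    rw [Finset.sum_eq_single q]
    · simp
    · intro q' _ hq'
      refine Finset.sum_eq_zero fun w' _ => ?_
      rw [if_neg]
      rintro ⟨h1, _⟩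
      exact hq' h1.symm
    · intro h
      exact absurd (Finset.mem_univ _) h
  · simp only [rg_rl, Fintype.sum_prod_type, Fintype.sum_bool]
    rw [Finset.sum_eq_single q.1]
    · simp only [true_and]
      rw [add_comm]
    · intro v _ hv
      simp [Ne.symm hv]
    · intro h
      exact absurd (Finset.mem_univ _) h

/-- The graph is regular of degree `r`. -/
theorem rg_reg {r : ℕ} (hd : ∀ v, nd H v + d v = r)
    (hΓ : ∀ w, nd Γ w + ((if w = a false then 1 else 0) + if w = a true then 1 else 0) = r) :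
    ∀ x, nd (RG H g d Γ a) x = r := by
  rintro (⟨v, b⟩ | ⟨q, w⟩)
  · rw [nd_l, hd]
  · rw [nd_r, hΓ]

end Reg

end Pool.Agent.Q224.KI
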