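import Pool.Agent.Q224.KI.R3
import Pool.Agent.Q224.KI.Def

/-!
Membership in NP, and the final statements
-/

set_option autoImplicit false
set_option linter.unusedSectionVars false

namespace Pool.Agent.Q224.KI

open Pool.Agent.NPC Pool.Agent.H622R2 Q229

theorem yes_iff {k r : ℕ} {I : List (List Bool) × ℕ} (hr : ∀ v, nd (matGraph I.1) v = r) :
    Yes k I ↔ HasKI (matGraph I.1) k I.2 := by
  classical
  have key : ∀ (S : Finset (Fin I.1.length)) (v : Fin I.1.length),
      ((matGraph I.1).neighborSet v ∩ (S : Set (Fin I.1.length))).ncard =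
      (S.filter ((matGraph I.1).Adj v)).card := by
    intro S v
    rw [← Set.ncard_coe_finset]
    congr 1
    ext w
    simp [and_comm]
  constructor
  · rintro ⟨S, ⟨h1, -⟩, h2⟩
    refine ⟨S.toFinset, ?_, ?_⟩
    · intro v hv
      have := h1 v (Set.mem_toFinset.1 hv)
      have h3 := key S.toFinset v
      rw [Set.coe_toFinset] at h3
      rw [h3] at this
      convert this
    · rwa [← Set.ncard_eq_toFinset_card']
  · rintro ⟨S, h1, h2⟩
    refine ⟨S, ⟨?_, ?_⟩, ?_⟩
    · intro v hv
      rw [key]
      have := h1 v hv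
      convert this
    · intro v _ w _
      exact (hr v).trans (hr w).symm
    · rwa [Set.ncard_coe_finset]

/-- the set given by a certificate -/
def cst (n : ℕ) (w : List ℕ) : List ℕ := (List.range n).filter fun i => decide (i ∈ w)

/-- the test of a certificate -/
def certT (k r : ℕ) (x : (List (List Bool) × ℕ) × List ℕ) : Bool :=
  ((List.range x.1.1.length).all fun i => decide (TDS.degL x.1.1 i = r)) &&
  (decide (1 ≤ x.1.2) && (decide (x.1.2 ≤ (cst x.1.1.length x.2).length) &&
    ((cst x.1.1.length x.2).all fun i =>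
      decide (((cst x.1.1.length x.2).filter fun j => adjT x.1.1 i j).length ≤ k))))

theorem certT_poly (k r : ℕ) : Poly (certT k r) := by
  have hM : Poly (fun x : (List (List Bool) × ℕ) × List ℕ => x.1.1) := Poly.fst (Poly.fst Poly.id)
  have hp : Poly (fun x : (List (List Bool) × ℕ) × List ℕ => x.1.2) := Poly.snd (Poly.fst Poly.id)
  have hw : Poly (fun x : (List (List Bool) × ℕ) × List ℕ => x.2) := Poly.snd Poly.id
  have hc : Poly (fun x : (List (List Bool) × ℕ) × List ℕ => cst x.1.1.length x.2) := by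
    unfold cst
    exact Poly.filter (p := fun (x : (List (List Bool) × ℕ) × List ℕ) i => decide (i ∈ x.2))
      (Poly.range_length hM) (Poly.decide_mem (Poly.snd Poly.id) (hw.comp (Poly.fst Poly.id)))
  unfold certT
  refine Poly.and ?_ (Poly.and (Poly.decide_le (pc 1) hp) (Poly.and
    (Poly.decide_le hp (Poly.length hc)) ?_))
  · exact Poly.all (p := fun (x : (List (List Bool) × ℕ) × List ℕ) i =>
      decide (TDS.degL x.1.1 i = r)) (Poly.range_length hM)
      (Poly.decide_eq (TDS.degL_poly (hM.comp (Poly.fst Poly.id)) (Poly.snd Poly.id)) (pc r))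
  · refine Poly.all (p := fun (x : (List (List Bool) × ℕ) × List ℕ) i =>
      decide (((cst x.1.1.length x.2).filter fun j => adjT x.1.1 i j).length ≤ k)) hc ?_
    refine Poly.decide_le (Poly.length ?_) (pc k)
    exact Poly.filter (p := fun (q : ((List (List Bool) × ℕ) × List ℕ) × ℕ) j =>
      adjT q.1.1.1 q.2 j) (hc.comp (Poly.fst Poly.id)) (adjT_poly
      (hM.comp (Poly.fst (Poly.fst Poly.id))) (Poly.snd (Poly.fst Poly.id)) (Poly.snd Poly.id))

theorem cert_iff (k r : ℕ) (I : List (List Bool) × ℕ) : RegKMIS k r I ↔ ∃ w : List ℕ,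
    sz w ≤ (Polynomial.X * (Polynomial.C 4 * Polynomial.X + Polynomial.C 2) + Polynomial.C 1 :
      Polynomial ℕ).eval (sz I) ∧ certT k r (I, w) = true := by
  classical
  have hn : I.1.length < sz I := by
    obtain ⟨M, p⟩ := I
    rw [sz_pair]
    have := length_lt_sz M
    simp only
    omega
  simp only [Polynomial.eval_add, Polynomial.eval_mul, Polynomial.eval_C, Polynomial.eval_X]
  have hlen : ∀ (w : List ℕ) (S : Finset (Fin I.1.length)),
      (∀ i : Fin I.1.length, i ∈ S ↔ i.1 ∈ w) →
      (cst I.1.length w).length = S.card ∧ ∀ i : Fin I.1.length,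
      ((cst I.1.length w).filter fun j => adjT I.1 i j).length =
        (S.filter ((matGraph I.1).Adj i)).card := by
    intro w S hS
    have hnd : (cst I.1.length w).Nodup := List.nodup_range.filter _
    constructor
    · rw [← List.toFinset_card_of_nodup hnd, ← Finset.card_map Fin.valEmbedding]
      congr 1
      ext x
      simp only [cst, List.mem_toFinset, List.mem_filter, List.mem_range, decide_eq_true_eq,
        Finset.mem_map, Fin.valEmbedding_apply]
      constructor
      · rintro ⟨h1, h2⟩
        exact ⟨⟨x, h1⟩, (hS _).2 h2, rfl⟩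
      · rintro ⟨i, hi, rfl⟩
        exact ⟨i.2, (hS _).1 hi⟩
    · intro i
      rw [← List.toFinset_card_of_nodup (hnd.filter _), ← Finset.card_map Fin.valEmbedding]
      congr 1
      ext x
      simp only [cst, List.mem_toFinset, List.mem_filter, List.mem_range, decide_eq_true_eq,
        Finset.mem_map, Fin.valEmbedding_apply, Finset.mem_filter]
      constructor
      · rintro ⟨⟨h1, h2⟩, h3⟩
        exact ⟨⟨x, h1⟩, ⟨(hS _).2 h2, (adjT_iff I.1 i ⟨x, h1⟩).1 h3⟩, rfl⟩
      · rintro ⟨j, ⟨hj, ha⟩, rfl⟩
        exact ⟨⟨j.2, (hS _).1 hj⟩, (adjT_iff I.1 i j).2 ha⟩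
  constructor
  · rintro ⟨⟨hr, h1⟩, hy⟩
    obtain ⟨S, hS, hp⟩ := (yes_iff hr).1 hy
    refine ⟨S.toList.map fun v => v.1, ?_, ?_⟩
    · have h2 := sz_list_lt I.1.length (S.toList.map fun v => v.1) (by
        intro x hx
        obtain ⟨v, _, rfl⟩ := List.mem_map.1 hx
        exact v.2) (by
        have := S.card_le_univ
        simpa using this)
      nlinarith
    · obtain ⟨h3, h4⟩ := hlen (S.toList.map fun v => v.1) S (by
        intro i
        simp only [List.mem_map, Finset.mem_toList]
        constructor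
        · exact fun h => ⟨i, h, rfl⟩
        · rintro ⟨j, hj, hji⟩
          rw [← Fin.ext hji]
          exact hj)
      unfold certT
      simp only [Bool.and_eq_true, List.all_eq_true, List.mem_range, decide_eq_true_eq]
      refine ⟨fun i hi => ?_, h1, by rw [h3]; exact hp, fun i hi => ?_⟩
      · rw [← nd_degL I.1 ⟨i, hi⟩]
        exact hr _
      · have h5 : i < I.1.length := List.mem_range.1 (List.mem_filter.1 hi).1
        have h6 := h4 ⟨i, h5⟩
        simp only at h6
        rw [h6]
        have h7 : (⟨i, h5⟩ : Fin I.1.length) ∈ S := by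
          have := (List.mem_filter.1 hi).2
          rw [decide_eq_true_eq, List.mem_map] at this
          obtain ⟨j, hj, hji⟩ := this
          rw [Finset.mem_toList] at hj
          rw [← show j = ⟨i, h5⟩ from Fin.ext hji]
          exact hj
        have := hS _ h7
        convert this
  · rintro ⟨w, -, h⟩
    unfold certT at h
    simp only [Bool.and_eq_true, List.all_eq_true, List.mem_range, decide_eq_true_eq] at h
    obtain ⟨h1, h2, h3, h4⟩ := h
    have hr : ∀ v, nd (matGraph I.1) v = r := fun v => by rw [nd_degL]; exact h1 v.1 v.2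
    let S : Finset (Fin I.1.length) := Finset.univ.filter fun i => i.1 ∈ w
    have hS : ∀ i : Fin I.1.length, i ∈ S ↔ i.1 ∈ w := fun i => by simp [S]
    obtain ⟨h5, h6⟩ := hlen w S hS
    refine ⟨⟨hr, h2⟩, (yes_iff hr).2 ⟨S, ?_, by rw [← h5]; exact h3⟩⟩
    intro v hv
    have h7 := h4 v.1 (by
      unfold cst
      rw [List.mem_filter, List.mem_range, decide_eq_true_eq]
      exact ⟨v.2, (hS v).1 hv⟩)
    rw [h6 v] at h7
    convert h7

theorem inNPP_RegKMIS (k r : ℕ) : InNPP (RegKMIS k r) := inNPP_of (certT_poly k r) _ (cert_iff k r)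

theorem hard_RegKMIS {k r : ℕ} (hk : 1 ≤ k) (hr : 3 ≤ r) (hkr : k + 1 ≤ r) :
    HardPr (IsInput r) (Yes k) := by
  by_cases h : k + 2 ≤ r
  · refine hardPr_SAT3b.trans (redA_poly k r) ?_ ?_
    · rintro φ ⟨-, hb, hne⟩
      exact ⟨redA_reg hk h φ, redA_pos hne k r⟩
    · rintro φ ⟨-, hb, hne⟩
      rw [yes_iff (redA_reg hk h φ), redA_iff hk h hb hne]
  · have : r = k + 1 := by omega
    subst this
    refine hardPr_SAT3b.trans (redD_poly (k + 1)) ?_ ?_
    · rintro φ ⟨-, hb, hne⟩
      exact ⟨redD_reg hr φ, redD_pos hne⟩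
    · rintro φ ⟨-, hb, hne⟩
      rw [yes_iff (redD_reg hr φ), redD_iff hr hb hne]

end Pool.Agent.Q224.KI
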