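import Pool.Agent.Q224.KI.Defs

/-!
Regularisation preserves the two problems
-/

set_option autoImplicit false
set_option linter.unusedSectionVars false

namespace Pool.Agent.Q224.KI

open Pool.Agent.NPC Pool.Agent.H622R2 Q229

/-! ### The block: a complete graph on `r + 1` vertices without the edge `01` -/

/-- edges of the block -/
def gb (w w' : ℕ) : Bool := !(decide (w ≤ 1) && decide (w' ≤ 1))

/-- the graph given by a boolean function -/
def GG (g : ℕ) (γ : ℕ → ℕ → Bool) : SimpleGraph (Fin g) where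
  Adj w w' := w ≠ w' ∧ (γ w w' = true ∨ γ w' w = true)
  symm := ⟨fun _ _ h => ⟨h.1.symm, h.2.symm⟩⟩
  loopless := ⟨fun _ h => h.1 rfl⟩

/-- attachments `0` and `1` -/
def at01 {g : ℕ} (hg : 2 ≤ g) (b : Bool) : Fin g := if b then ⟨1, by omega⟩ else ⟨0, by omega⟩

theorem at01_f {g : ℕ} (hg : 2 ≤ g) : (at01 hg false).1 = 0 := rfl
theorem at01_t {g : ℕ} (hg : 2 ≤ g) : (at01 hg true).1 = 1 := rfl
theorem at01_le {g : ℕ} (hg : 2 ≤ g) (b : Bool) : (at01 hg b).1 ≤ 1 := by
  cases b
  · rw [at01_f]; exact Nat.zero_le _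
  · rw [at01_t]

theorem gb_adj {g : ℕ} (w w' : Fin g) : (GG g gb).Adj w w' ↔
    w ≠ w' ∧ (2 ≤ w.1 ∨ 2 ≤ w'.1) := by
  unfold GG gb
  simp only [Bool.not_eq_true', Bool.and_eq_false_iff, decide_eq_false_iff_not, not_le]
  constructor
  · rintro ⟨h1, h2⟩
    exact ⟨h1, by omega⟩
  · rintro ⟨h1, h2⟩
    exact ⟨h1, by omega⟩

/-- degrees in the block -/
theorem gb_reg {r : ℕ} (hr : 1 ≤ r) (w : Fin (r + 1)) :
    nd (GG (r + 1) gb) w + ((if w = at01 (by omega) false then 1 else 0) +
      if w = at01 (by omega) true then 1 else 0) = r := by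
  classical
  have h1 : nd (GG (r + 1) gb) w = (Finset.univ.filter fun w' : Fin (r + 1) =>
      w ≠ w' ∧ (2 ≤ w.1 ∨ 2 ≤ w'.1)).card := by
    rw [nd_eq_sum, Finset.card_filter]
    refine Finset.sum_congr rfl fun w' _ => ?_
    simp only [gb_adj]
  have e0 : (w = at01 (g := r + 1) (by omega) false) ↔ w.1 = 0 := by
    unfold at01; rw [Fin.ext_iff]; simp
  have e1 : (w = at01 (g := r + 1) (by omega) true) ↔ w.1 = 1 := by
    unfold at01; rw [Fin.ext_iff]; simp
  simp only [e0, e1]
  rw [h1]
  by_cases hw : 2 ≤ w.1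
  · have h2 : (Finset.univ.filter fun w' : Fin (r + 1) => w ≠ w' ∧ (2 ≤ w.1 ∨ 2 ≤ w'.1)) =
        Finset.univ.erase w := by
      ext x
      simp only [Finset.mem_filter, Finset.mem_univ, true_and, Finset.mem_erase, and_true]
      constructor
      · exact fun h => h.1.symm
      · exact fun h => ⟨fun h' => h h'.symm, Or.inl hw⟩
    rw [h2, Finset.card_erase_of_mem (Finset.mem_univ _)]
    simp only [Finset.card_univ, Fintype.card_fin]
    rw [if_neg (by omega), if_neg (by omega)]
    omega
  · have h2 : (Finset.univ.filter fun w' : Fin (r + 1) => w ≠ w' ∧ (2 ≤ w.1 ∨ 2 ≤ w'.1)) =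
        Finset.univ \ {⟨0, by omega⟩, ⟨1, by omega⟩} := by
      ext x
      simp only [Finset.mem_filter, Finset.mem_univ, true_and, Finset.mem_sdiff,
        Finset.mem_insert, Finset.mem_singleton, Fin.ext_iff]
      constructor
      · rintro ⟨h3, h4⟩; omega
      · intro h3
        refine ⟨fun h4 => ?_, ?_⟩
        · rw [Fin.ext_iff] at h4; omega
        · omega
    rw [h2, Finset.card_sdiff_of_subset (Finset.subset_univ _), Finset.card_pair]
    · simp only [Finset.card_univ, Fintype.card_fin]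
      have : w.1 = 0 ∨ w.1 = 1 := by omega
      rcases this with h | h <;> rw [h] <;> simp <;> omega
    · intro h; rw [Fin.ext_iff] at h; simp at h

section KIRed

variable {V : Type} [Fintype V]

/-- splitting a set of vertices of the regularised graph -/
theorem card_split {g : ℕ} {d : V → ℕ} [DecidableEq (RV g d)] [DecidableEq V]
    (S : Finset (RV g d)) :
    S.card = (Finset.univ.filter fun v : V => (Sum.inl (v, false) : RV g d) ∈ S).card +
      (Finset.univ.filter fun v : V => (Sum.inl (v, true) : RV g d) ∈ S).card +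
      ∑ q : Pl d, (Finset.univ.filter fun w : Fin g => (Sum.inr (q, w) : RV g d) ∈ S).card := by
  classical
  have h1 : S.card = ∑ x : RV g d, if x ∈ S then 1 else 0 := by
    rw [← Finset.card_filter]
    congr 1
    ext x
    simp
  rw [h1, Fintype.sum_sum_type, Fintype.sum_prod_type, Fintype.sum_prod_type]
  congr 1
  · simp only [Fintype.sum_bool, Finset.sum_add_distrib, Finset.card_filter]
    rw [add_comm]
  · refine Finset.sum_congr rfl fun q _ => ?_
    rw [Finset.card_filter]

theorem reg_KI (H : SimpleGraph V) (d : V → ℕ) {k r p : ℕ} (hk : 1 ≤ k) (hr : k + 2 ≤ r) :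
    HasKI (RG H (r + 1) d (GG (r + 1) gb) (at01 (by omega))) k
      (2 * p + (k + 1) * Fintype.card (Pl d)) ↔ HasKI H k p := by
  classical
  constructor
  · rintro ⟨S, hS, hp⟩
    rw [card_split] at hp
    -- every block contains at most `k + 1` elements
    have hblock : ∀ q : Pl d, (Finset.univ.filter fun w : Fin (r + 1) =>
        (Sum.inr (q, w) : RV (r + 1) d) ∈ S).card ≤ k + 1 := by
      intro q
      by_contra hcon
      push Not at hcon
      set B := Finset.univ.filter fun w : Fin (r + 1) => (Sum.inr (q, w) : RV (r + 1) d) ∈ S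
        with hB
      -- some element is at least `2`
      obtain ⟨w, hw, hw2⟩ : ∃ w ∈ B, 2 ≤ w.1 := by
        by_contra hno
        push Not at hno
        have h1 : B ⊆ {⟨0, by omega⟩, ⟨1, by omega⟩} := by
          intro w hw
          have := hno w hw
          simp only [Finset.mem_insert, Finset.mem_singleton, Fin.ext_iff]
          omega
        have h2 := Finset.card_le_card h1
        have h3 := Finset.card_le_two (a := (⟨0, by omega⟩ : Fin (r + 1))) (b := ⟨1, by omega⟩)
        omega
      have h1 := hS (Sum.inr (q, w)) (by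
        rw [hB, Finset.mem_filter] at hw; exact hw.2)
      have h2 : ((B.erase w).map ⟨fun w' => (Sum.inr (q, w') : RV (r + 1) d), by
          intro x y hxy; simpa using hxy⟩) ⊆
          S.filter ((RG H (r + 1) d (GG (r + 1) gb) (at01 (by omega))).Adj (Sum.inr (q, w))) := by
        intro x hx
        rw [Finset.mem_map] at hx
        obtain ⟨w', hw', rfl⟩ := hx
        rw [Finset.mem_erase, hB, Finset.mem_filter] at hw'
        rw [Finset.mem_filter]
        refine ⟨hw'.2.2, ?_⟩
        exact ⟨rfl, (gb_adj _ _).2 ⟨hw'.1.symm, Or.inl hw2⟩⟩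
      have h3 := Finset.card_le_card h2
      rw [Finset.card_map, Finset.card_erase_of_mem hw] at h3
      omega
    have hsum : ∑ q : Pl d, (Finset.univ.filter fun w : Fin (r + 1) =>
        (Sum.inr (q, w) : RV (r + 1) d) ∈ S).card ≤ (k + 1) * Fintype.card (Pl d) := by
      refine (Finset.sum_le_sum fun q _ => hblock q).trans ?_
      rw [Finset.sum_const, smul_eq_mul, Finset.card_univ, mul_comm]
    -- one of the copies is large
    obtain ⟨b, hb⟩ : ∃ b : Bool, p ≤ (Finset.univ.filter fun v : V =>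
        (Sum.inl (v, b) : RV (r + 1) d) ∈ S).card := by
      by_contra hno
      push Not at hno
      have h1 := hno false
      have h2 := hno true
      omega
    refine ⟨_, ?_, hb⟩
    intro v hv
    rw [Finset.mem_filter] at hv
    refine le_trans ?_ (hS _ hv.2)
    rw [← Finset.card_map (⟨fun v => (Sum.inl (v, b) : RV (r + 1) d), by
          intro x y hxy; simpa using hxy⟩ : V ↪ RV (r + 1) d)]
    refine Finset.card_le_card ?_
    intro x hx
    rw [Finset.mem_map] at hx
    obtain ⟨w, hw, rfl⟩ := hx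
    rw [Finset.mem_filter, Finset.mem_filter] at hw
    rw [Finset.mem_filter]
    exact ⟨hw.1.2, rfl, hw.2⟩
  · rintro ⟨S, hS, hp⟩
    let S' : Finset (RV (r + 1) d) := Finset.univ.filter fun x =>
      match x with
      | Sum.inl y => y.1 ∈ S
      | Sum.inr q => 2 ≤ q.2.1 ∧ q.2.1 ≤ k + 2
    have hl : ∀ v b, (Sum.inl (v, b) : RV (r + 1) d) ∈ S' ↔ v ∈ S := by
      intro v b; simp [S']
    have hrr : ∀ q w, (Sum.inr (q, w) : RV (r + 1) d) ∈ S' ↔ 2 ≤ w.1 ∧ w.1 ≤ k + 2 := by
      intro q w; simp [S']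
    refine ⟨S', ?_, ?_⟩
    · rintro (⟨v, b⟩ | ⟨q, w⟩) hv
      · rw [hl] at hv
        refine le_trans ?_ (hS v hv)
        rw [← Finset.card_map (⟨fun v => (Sum.inl (v, b) : RV (r + 1) d), by
          intro x y hxy; simpa using hxy⟩ : V ↪ RV (r + 1) d)]
        refine Finset.card_le_card ?_
        rintro (⟨v', b'⟩ | ⟨q', w'⟩) hx
        · rw [Finset.mem_filter, hl, rg_ll] at hx
          rw [Finset.mem_map]
          refine ⟨v', Finset.mem_filter.2 ⟨hx.1, hx.2.2⟩, ?_⟩
          have : b = b' := hx.2.1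
          rw [this]
          rfl
        · rw [Finset.mem_filter, hrr, rg_lr] at hx
          exfalso
          have h1 : w' = at01 (by omega) b := hx.2.2
          rw [h1] at hx
          unfold at01 at hx
          cases b <;> simp at hx
      · rw [hrr] at hv
        have h1 : S'.filter ((RG H (r + 1) d (GG (r + 1) gb) (at01 (by omega))).Adj
            (Sum.inr (q, w))) ⊆ (((Finset.Icc 2 (k + 2)).erase w.1).attachFin (n := r + 1) (by
              intro x hx
              rw [Finset.mem_erase, Finset.mem_Icc] at hx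
              omega)).map (⟨fun w' => (Sum.inr (q, w') : RV (r + 1) d), by
          intro x y hxy; simpa using hxy⟩ : Fin (r + 1) ↪ RV (r + 1) d) := by
          rintro (⟨v', b'⟩ | ⟨q', w'⟩) hx
          · rw [Finset.mem_filter, rg_rl] at hx
            exfalso
            have h1 : w = at01 (by omega) b' := hx.2.2
            rw [h1] at hv
            unfold at01 at hv
            cases b' <;> simp at hv
          · rw [Finset.mem_filter, hrr, rg_rr, gb_adj] at hx
            rw [Finset.mem_map]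
            refine ⟨w', ?_, ?_⟩
            · rw [Finset.mem_attachFin, Finset.mem_erase, Finset.mem_Icc]
              refine ⟨fun h => hx.2.2.1 (Fin.ext h.symm), hx.1⟩
            · have : q = q' := hx.2.1
              rw [this]
              rfl
        refine (Finset.card_le_card h1).trans ?_
        rw [Finset.card_map, Finset.card_attachFin, Finset.card_erase_of_mem
          (Finset.mem_Icc.2 hv), Nat.card_Icc]
        omega
    · rw [card_split]
      have h1 : ∀ b, (Finset.univ.filter fun v : V => (Sum.inl (v, b) : RV (r + 1) d) ∈ S') = S := by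
        intro b
        ext v
        rw [Finset.mem_filter, hl]
        simp
      have h2 : ∀ q : Pl d, (Finset.univ.filter fun w : Fin (r + 1) =>
          (Sum.inr (q, w) : RV (r + 1) d) ∈ S').card = k + 1 := by
        intro q
        have : (Finset.univ.filter fun w : Fin (r + 1) =>
          (Sum.inr (q, w) : RV (r + 1) d) ∈ S') = (Finset.Icc 2 (k + 2)).attachFin (by
              intro x hx
              rw [Finset.mem_Icc] at hx
              omega) := by
          ext w
          rw [Finset.mem_filter, hrr, Finset.mem_attachFin, Finset.mem_Icc]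
          simp
        rw [this, Finset.card_attachFin, Nat.card_Icc]
        omega
      rw [h1, h1]
      simp only [h2, Finset.sum_const, Finset.card_univ, smul_eq_mul]
      nlinarith
end KIRed

/-! ### The filler for domination -/

/-- edges of the filler: two complete graphs `B = {0, …, s}` without `02`, `12`, and
`C = {s + 1, …, 2 s + 1}` without its first edge, and two edges from `2` to `C`. -/
def gf (s : ℕ) (w w' : ℕ) : Bool :=
  (decide (w ≤ s) && (decide (w' ≤ s) && !(decide (w ≤ 1) && decide (w' = 2)) &&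
    !(decide (w' ≤ 1) && decide (w = 2)))) ||
  ((decide (s < w) && (decide (s < w') && !(decide (w ≤ s + 2) && decide (w' ≤ s + 2)))) ||
  (decide (w = 2) && (decide (s < w') && decide (w' ≤ s + 2))))

theorem gf_adj {s : ℕ} (hs : 3 ≤ s) (w w' : Fin (2 * (s + 1))) : (GG (2 * (s + 1)) (gf s)).Adj w w' ↔
    w ≠ w' ∧ ((w.1 ≤ s ∧ w'.1 ≤ s ∧ ¬ (w.1 ≤ 1 ∧ w'.1 = 2) ∧ ¬ (w'.1 ≤ 1 ∧ w.1 = 2)) ∨
      (s < w.1 ∧ s < w'.1 ∧ ¬ (w.1 ≤ s + 2 ∧ w'.1 ≤ s + 2)) ∨
      (w.1 = 2 ∧ s < w'.1 ∧ w'.1 ≤ s + 2) ∨ (w'.1 = 2 ∧ s < w.1 ∧ w.1 ≤ s + 2)) := by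
  unfold GG gf
  simp only [Bool.or_eq_true, Bool.and_eq_true, Bool.not_eq_true', Bool.and_eq_false_iff,
    decide_eq_false_iff_not, decide_eq_true_eq]
  refine and_congr Iff.rfl ?_
  constructor
  · rintro (h | h) <;> omega
  · intro h
    omega

theorem card_filter_fin {n : ℕ} (P : ℕ → Prop) [DecidablePred P] :
    (Finset.univ.filter fun w : Fin n => P w.1).card = ((Finset.range n).filter P).card := by
  rw [← Finset.card_map Fin.valEmbedding]
  congr 1
  ext x
  simp only [Finset.mem_map, Finset.mem_filter, Finset.mem_univ, true_and,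
    Fin.valEmbedding_apply, Finset.mem_range]
  constructor
  · rintro ⟨w, hw, rfl⟩; exact ⟨w.2, hw⟩
  · rintro ⟨h1, h2⟩; exact ⟨⟨x, h1⟩, h2, rfl⟩

theorem gf_reg {s : ℕ} (hs : 3 ≤ s) (w : Fin (2 * (s + 1))) :
    nd (GG (2 * (s + 1)) (gf s)) w + ((if w = at01 (by omega) false then 1 else 0) +
      if w = at01 (by omega) true then 1 else 0) = s := by
  classical
  have h1 : nd (GG (2 * (s + 1)) (gf s)) w = ((Finset.range (2 * (s + 1))).filter fun w' =>
      w.1 ≠ w' ∧ ((w.1 ≤ s ∧ w' ≤ s ∧ ¬ (w.1 ≤ 1 ∧ w' = 2) ∧ ¬ (w' ≤ 1 ∧ w.1 = 2)) ∨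
      (s < w.1 ∧ s < w' ∧ ¬ (w.1 ≤ s + 2 ∧ w' ≤ s + 2)) ∨
      (w.1 = 2 ∧ s < w' ∧ w' ≤ s + 2) ∨ (w' = 2 ∧ s < w.1 ∧ w.1 ≤ s + 2))).card := by
    rw [nd_eq_sum, ← card_filter_fin, Finset.card_filter]
    refine Finset.sum_congr rfl fun w' _ => ?_
    have h2 : (w ≠ w') ↔ (w.1 ≠ w'.1) := by rw [Ne, Fin.ext_iff]
    simp only [gf_adj hs, h2]
  have e0 : (w = at01 (g := 2 * (s + 1)) (by omega) false) ↔ w.1 = 0 := by
    rw [Fin.ext_iff, at01_f]
  have e1 : (w = at01 (g := 2 * (s + 1)) (by omega) true) ↔ w.1 = 1 := by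
    rw [Fin.ext_iff, at01_t]
  simp only [e0, e1]
  rw [h1]
  have hw := w.2
  clear h1 e0 e1
  generalize w.1 = u at *
  by_cases c1 : u ≤ 1
  · have h2 : ((Finset.range (2 * (s + 1))).filter fun w' =>
      u ≠ w' ∧ ((u ≤ s ∧ w' ≤ s ∧ ¬ (u ≤ 1 ∧ w' = 2) ∧ ¬ (w' ≤ 1 ∧ u = 2)) ∨
      (s < u ∧ s < w' ∧ ¬ (u ≤ s + 2 ∧ w' ≤ s + 2)) ∨
      (u = 2 ∧ s < w' ∧ w' ≤ s + 2) ∨ (w' = 2 ∧ s < u ∧ u ≤ s + 2))) =
      (Finset.range (s + 1)).erase u \ {2} := by
      ext x
      simp only [Finset.mem_filter, Finset.mem_range, Finset.mem_sdiff, Finset.mem_erase,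
        Finset.mem_singleton]
      omega
    rw [h2, Finset.card_sdiff_of_subset, Finset.card_erase_of_mem, Finset.card_range,
      Finset.card_singleton]
    · have : u = 0 ∨ u = 1 := by omega
      rcases this with h | h <;> rw [h] <;> simp <;> omega
    · rw [Finset.mem_range]; omega
    · intro x hx
      rw [Finset.mem_singleton] at hx
      rw [Finset.mem_erase, Finset.mem_range]
      omega
  rw [if_neg (by omega), if_neg (by omega)]
  by_cases c2 : u = 2
  · have h2 : ((Finset.range (2 * (s + 1))).filter fun w' =>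
      u ≠ w' ∧ ((u ≤ s ∧ w' ≤ s ∧ ¬ (u ≤ 1 ∧ w' = 2) ∧ ¬ (w' ≤ 1 ∧ u = 2)) ∨
      (s < u ∧ s < w' ∧ ¬ (u ≤ s + 2 ∧ w' ≤ s + 2)) ∨
      (u = 2 ∧ s < w' ∧ w' ≤ s + 2) ∨ (w' = 2 ∧ s < u ∧ u ≤ s + 2))) =
      Finset.Icc 3 (s + 2) := by
      ext x
      simp only [Finset.mem_filter, Finset.mem_range, Finset.mem_Icc]
      omega
    rw [h2, Nat.card_Icc]
    omega
  by_cases c3 : u ≤ s
  · have h2 : ((Finset.range (2 * (s + 1))).filter fun w' =>
      u ≠ w' ∧ ((u ≤ s ∧ w' ≤ s ∧ ¬ (u ≤ 1 ∧ w' = 2) ∧ ¬ (w' ≤ 1 ∧ u = 2)) ∨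
      (s < u ∧ s < w' ∧ ¬ (u ≤ s + 2 ∧ w' ≤ s + 2)) ∨
      (u = 2 ∧ s < w' ∧ w' ≤ s + 2) ∨ (w' = 2 ∧ s < u ∧ u ≤ s + 2))) =
      (Finset.range (s + 1)).erase u := by
      ext x
      simp only [Finset.mem_filter, Finset.mem_range, Finset.mem_erase]
      omega
    rw [h2, Finset.card_erase_of_mem (by rw [Finset.mem_range]; omega), Finset.card_range]
    omega
  by_cases c4 : u ≤ s + 2
  · have h2 : ((Finset.range (2 * (s + 1))).filter fun w' =>
      u ≠ w' ∧ ((u ≤ s ∧ w' ≤ s ∧ ¬ (u ≤ 1 ∧ w' = 2) ∧ ¬ (w' ≤ 1 ∧ u = 2)) ∨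
      (s < u ∧ s < w' ∧ ¬ (u ≤ s + 2 ∧ w' ≤ s + 2)) ∨
      (u = 2 ∧ s < w' ∧ w' ≤ s + 2) ∨ (w' = 2 ∧ s < u ∧ u ≤ s + 2))) =
      insert 2 (Finset.Icc (s + 3) (2 * s + 1)) := by
      ext x
      simp only [Finset.mem_filter, Finset.mem_range, Finset.mem_insert, Finset.mem_Icc]
      omega
    rw [h2, Finset.card_insert_of_notMem (by rw [Finset.mem_Icc]; omega), Nat.card_Icc]
    omega
  · have h2 : ((Finset.range (2 * (s + 1))).filter fun w' =>
      u ≠ w' ∧ ((u ≤ s ∧ w' ≤ s ∧ ¬ (u ≤ 1 ∧ w' = 2) ∧ ¬ (w' ≤ 1 ∧ u = 2)) ∨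
      (s < u ∧ s < w' ∧ ¬ (u ≤ s + 2 ∧ w' ≤ s + 2)) ∨
      (u = 2 ∧ s < w' ∧ w' ≤ s + 2) ∨ (w' = 2 ∧ s < u ∧ u ≤ s + 2))) =
      (Finset.Icc (s + 1) (2 * s + 1)).erase u := by
      ext x
      simp only [Finset.mem_filter, Finset.mem_range, Finset.mem_Icc, Finset.mem_erase]
      omega
    rw [h2, Finset.card_erase_of_mem (by rw [Finset.mem_Icc]; omega), Nat.card_Icc]
    omega

section DomRed

variable {V : Type} [Fintype V]

theorem reg_Dom (H : SimpleGraph V) (d : V → ℕ) {s p : ℕ} (hs : 3 ≤ s) :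
    HasDom (RG H (2 * (s + 1)) d (GG (2 * (s + 1)) (gf s)) (at01 (by omega)))
      (2 * p + 2 * Fintype.card (Pl d)) ↔ HasDom H p := by
  classical
  constructor
  · rintro ⟨D, hD, hp⟩
    rw [card_split] at hp
    let A : Bool → Finset V := fun b => Finset.univ.filter fun v : V =>
      (Sum.inl (v, b) : RV (2 * (s + 1)) d) ∈ D
    let W : Pl d → Finset (Fin (2 * (s + 1))) := fun q => Finset.univ.filter fun w =>
      (Sum.inr (q, w) : RV (2 * (s + 1)) d) ∈ D
    let T : Bool → Finset (Pl d) := fun b => Finset.univ.filter fun q =>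
      (Sum.inr (q, at01 (by omega) b) : RV (2 * (s + 1)) d) ∈ D
    have hW : ∀ q w, w ∈ W q ↔ (Sum.inr (q, w) : RV (2 * (s + 1)) d) ∈ D := by
      intro q w; simp [W]
    -- inner vertices are dominated inside of the filler
    have hin : ∀ q w, 2 ≤ w.1 → w ∈ W q ∨ ∃ w' ∈ W q, (GG (2 * (s + 1)) (gf s)).Adj w w' := by
      intro q w hw
      rcases hD (Sum.inr (q, w)) with h1 | ⟨x, hx, h1⟩
      · left; rwa [hW]
      · rcases x with ⟨v, b⟩ | ⟨q', w'⟩
        · exfalso
          rw [rg_rl] at h1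
          have h2 : w = at01 (by omega) b := h1.2
          rw [h2] at hw
          have := at01_le (g := 2 * (s + 1)) (by omega) b
          omega
        · rw [rg_rr] at h1
          obtain ⟨h2, h3⟩ := h1
          simp only at h2 h3
          subst h2
          exact Or.inr ⟨w', (hW _ _).2 hx, h3⟩
    have htwo : ∀ q, ∃ x ∈ W q, ∃ y ∈ W q, x ≠ y ∧ 2 ≤ x.1 ∧ 2 ≤ y.1 := by
      intro q
      -- an element of `C`
      obtain ⟨y, hy, hys⟩ : ∃ y ∈ W q, s < y.1 := by
        rcases hin q ⟨s + 3, by omega⟩ (by simp) with h1 | ⟨y, hy, h1⟩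
        · exact ⟨_, h1, by simp⟩
        · refine ⟨y, hy, ?_⟩
          rw [gf_adj hs] at h1
          simp only at h1
          omega
      by_cases hx : ∃ x ∈ W q, x.1 ≤ s ∧ 2 ≤ x.1
      · obtain ⟨x, hx, hxs, hx2⟩ := hx
        exact ⟨x, hx, y, hy, fun h => by rw [h] at hxs; omega, hx2, by omega⟩
      push Not at hx
      -- the vertex `2` is dominated from `C`
      obtain ⟨z, hz, hz1, hz2⟩ : ∃ z ∈ W q, s < z.1 ∧ z.1 ≤ s + 2 := by
        rcases hin q ⟨2, by omega⟩ (by simp) with h1 | ⟨z, hz, h1⟩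
        · have := hx _ h1 (by simp only; omega)
          simp at this
        · refine ⟨z, hz, ?_⟩
          have h3 := hx z hz
          rw [gf_adj hs] at h1
          have h4 := h1.2
          have h5 : (⟨2, by omega⟩ : Fin (2 * (s + 1))).1 = 2 := rfl
          rw [h5] at h4
          clear h1 h5
          omega
      -- the other one of `s + 1`, `s + 2`
      obtain ⟨u, hu1, hu2, huz⟩ : ∃ u : Fin (2 * (s + 1)), s < u.1 ∧ u.1 ≤ s + 2 ∧ u.1 ≠ z.1 := by
        by_cases h : z.1 = s + 1
        · exact ⟨⟨s + 2, by omega⟩, by simp, by simp, by simp only; omega⟩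
        · exact ⟨⟨s + 1, by omega⟩, by simp, by simp, by simp only; omega⟩
      rcases hin q u (by omega) with h1 | ⟨x, hx1, h1⟩
      · exact ⟨u, h1, z, hz, fun h => huz (by rw [h]), by omega, by omega⟩
      · have h3 := hx x hx1
        rw [gf_adj hs, Ne, Fin.ext_iff] at h1
        have h4 : s < x.1 ∧ x.1 ≠ z.1 := by omega
        exact ⟨x, hx1, z, hz, fun h => h4.2 (by rw [h]), by omega, by omega⟩
    have hcard : ∀ q, 2 + ((if q ∈ T false then 1 else 0) + if q ∈ T true then 1 else 0) ≤
        (W q).card := by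
      intro q
      obtain ⟨x, hx, y, hy, hxy, hx2, hy2⟩ := htwo q
      have h1 : (W q).card = ((W q).filter fun w => 2 ≤ w.1).card +
          ((W q).filter fun w => ¬ 2 ≤ w.1).card :=
        (Finset.card_filter_add_card_filter_not _).symm
      have h2 : 2 ≤ ((W q).filter fun w => 2 ≤ w.1).card := by
        refine le_trans (le_of_eq (Finset.card_pair hxy).symm) (Finset.card_le_card ?_)
        intro z hz
        rw [Finset.mem_insert, Finset.mem_singleton] at hz
        rw [Finset.mem_filter]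
        rcases hz with rfl | rfl
        · exact ⟨hx, hx2⟩
        · exact ⟨hy, hy2⟩
      have h3 : ((if q ∈ T false then 1 else 0) + if q ∈ T true then 1 else 0) ≤
          ((W q).filter fun w => ¬ 2 ≤ w.1).card := by
        have e : ∀ b, q ∈ T b ↔ at01 (by omega) b ∈ W q := by
          intro b; rw [hW]; simp [T]
        have hlt : ∀ b, ¬ 2 ≤ (at01 (g := 2 * (s + 1)) (by omega) b).1 := by
          intro b
          have := at01_le (g := 2 * (s + 1)) (by omega) b
          omega
        by_cases hf : q ∈ T false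
        · by_cases ht : q ∈ T true
          · rw [if_pos hf, if_pos ht]
            have hne : at01 (g := 2 * (s + 1)) (by omega) false ≠ at01 (by omega) true := by
              rw [Ne, Fin.ext_iff, at01_f, at01_t]; omega
            refine le_trans (le_of_eq (Finset.card_pair hne).symm) (Finset.card_le_card ?_)
            intro z hz
            rw [Finset.mem_insert, Finset.mem_singleton] at hz
            rw [Finset.mem_filter]
            rcases hz with rfl | rfl
            · exact ⟨(e _).1 hf, hlt _⟩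
            · exact ⟨(e _).1 ht, hlt _⟩
          · rw [if_pos hf, if_neg ht]
            exact Finset.card_pos.2 ⟨_, Finset.mem_filter.2 ⟨(e _).1 hf, hlt _⟩⟩
        · by_cases ht : q ∈ T true
          · rw [if_neg hf, if_pos ht]
            exact Finset.card_pos.2 ⟨_, Finset.mem_filter.2 ⟨(e _).1 ht, hlt _⟩⟩
          · rw [if_neg hf, if_neg ht]
            exact Nat.zero_le _
      omega
    -- the dominating sets of `H`
    let E : Bool → Finset V := fun b => A b ∪ (T b).image fun q => q.1
    have hE : ∀ b v, v ∈ E b ∨ ∃ w ∈ E b, H.Adj v w := by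
      intro b v
      rcases hD (Sum.inl (v, b)) with h1 | ⟨x, hx, h1⟩
      · left
        exact Finset.mem_union_left _ (by simp [A, h1])
      · rcases x with ⟨v', b'⟩ | ⟨q', w'⟩
        · rw [rg_ll] at h1
          obtain ⟨h2, h3⟩ := h1
          simp only at h2 h3
          subst h2
          exact Or.inr ⟨v', Finset.mem_union_left _ (by simp [A, hx]), h3⟩
        · left
          rw [rg_lr] at h1
          obtain ⟨h2, h3⟩ := h1
          simp only at h2 h3
          subst h3
          refine Finset.mem_union_right _ (Finset.mem_image.2 ⟨q', ?_, h2⟩)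
          simp [T, hx]
    have hEc : ∀ b, (E b).card ≤ (A b).card + (T b).card := by
      intro b
      refine (Finset.card_union_le _ _).trans ?_
      exact Nat.add_le_add_left Finset.card_image_le _
    have hsum : 2 * Fintype.card (Pl d) + (T false).card + (T true).card ≤
        ∑ q : Pl d, (W q).card := by
      refine le_trans (le_of_eq ?_) (Finset.sum_le_sum fun q _ => hcard q)
      rw [Finset.sum_add_distrib, Finset.sum_add_distrib, Finset.sum_const, smul_eq_mul,
        Finset.card_univ, ← Finset.card_filter, ← Finset.card_filter]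
      simp only [Finset.filter_univ_mem]
      ring
    have hsum' : 2 * Fintype.card (Pl d) + (T false).card + (T true).card ≤
        ∑ q : Pl d, (Finset.univ.filter fun w : Fin (2 * (s + 1)) =>
          (Sum.inr (q, w) : RV (2 * (s + 1)) d) ∈ D).card := hsum
    have hA0 : (A false).card = (Finset.univ.filter fun v : V =>
      (Sum.inl (v, false) : RV (2 * (s + 1)) d) ∈ D).card := rfl
    have hA1 : (A true).card = (Finset.univ.filter fun v : V =>
      (Sum.inl (v, true) : RV (2 * (s + 1)) d) ∈ D).card := rfl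
    have h0 := hEc false
    have h1 := hEc true
    by_cases hlt : (E false).card ≤ p
    · exact ⟨E false, hE false, hlt⟩
    · refine ⟨E true, hE true, ?_⟩
      omega
  · rintro ⟨D, hD, hp⟩
    let D' : Finset (RV (2 * (s + 1)) d) := Finset.univ.filter fun x =>
      match x with
      | Sum.inl y => y.1 ∈ D
      | Sum.inr q => q.2.1 = 3 ∨ q.2.1 = s + 3
    have hl : ∀ v b, (Sum.inl (v, b) : RV (2 * (s + 1)) d) ∈ D' ↔ v ∈ D := by
      intro v b; simp [D']
    have hrr : ∀ q w, (Sum.inr (q, w) : RV (2 * (s + 1)) d) ∈ D' ↔ w.1 = 3 ∨ w.1 = s + 3 := by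
      intro q w; simp [D']
    refine ⟨D', ?_, ?_⟩
    · rintro (⟨v, b⟩ | ⟨q, w⟩)
      · rcases hD v with h1 | ⟨w, hw, h1⟩
        · left; rwa [hl]
        · right; exact ⟨Sum.inl (w, b), (hl _ _).2 hw, rfl, h1⟩
      · by_cases hw : w.1 ≤ s
        · by_cases h3 : w.1 = 3
          · left; rw [hrr]; exact Or.inl h3
          · right
            refine ⟨Sum.inr (q, ⟨3, by omega⟩), (hrr _ _).2 (Or.inl rfl), rfl, ?_⟩
            rw [gf_adj hs]
            refine ⟨fun h => h3 (by simp only at h; rw [h]), Or.inl ?_⟩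
            simp only
            omega
        · by_cases h3 : w.1 = s + 3
          · left; rw [hrr]; exact Or.inr h3
          · right
            refine ⟨Sum.inr (q, ⟨s + 3, by omega⟩), (hrr _ _).2 (Or.inr rfl), rfl, ?_⟩
            rw [gf_adj hs]
            refine ⟨fun h => h3 (by simp only at h; rw [h]), Or.inr (Or.inl ?_)⟩
            simp only
            omega
    · rw [card_split]
      have h1 : ∀ b, (Finset.univ.filter fun v : V =>
          (Sum.inl (v, b) : RV (2 * (s + 1)) d) ∈ D') = D := by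
        intro b
        ext v
        rw [Finset.mem_filter, hl]
        simp
      have h2 : ∀ q : Pl d, (Finset.univ.filter fun w : Fin (2 * (s + 1)) =>
          (Sum.inr (q, w) : RV (2 * (s + 1)) d) ∈ D').card = 2 := by
        intro q
        have : (Finset.univ.filter fun w : Fin (2 * (s + 1)) =>
          (Sum.inr (q, w) : RV (2 * (s + 1)) d) ∈ D') = {⟨3, by omega⟩, ⟨s + 3, by omega⟩} := by
          ext w
          rw [Finset.mem_filter, hrr, Finset.mem_insert, Finset.mem_singleton, Fin.ext_iff,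
            Fin.ext_iff]
          simp
        rw [this, Finset.card_pair]
        rw [Ne, Fin.ext_iff]
        simp only
        omega
      rw [h1, h1]
      simp only [h2, Finset.sum_const, Finset.card_univ, smul_eq_mul]
      omega

end DomRed

end Pool.Agent.Q224.KI
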