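import Pool.Agent.Q224.KI.Reg
import Pool.Agent.H642R2.TGPoly

/-!
Graphs of labels; leaves
-/

set_option autoImplicit false
set_option linter.unusedSectionVars false

namespace Pool.Agent.Q224.KI

open Pool.Agent.NPC Pool.Agent.H622R2 Q229

/-- adjacency of labels -/
def LAdj (adj : Lab → Lab → Bool) (x y : Lab) : Prop := x ≠ y ∧ (adj x y = true ∨ adj y x = true)

/-- the graph on a list of labels -/
def labG (vs : List Lab) (adj : Lab → Lab → Bool) : SimpleGraph {z // z ∈ vs} where
  Adj x y := LAdj adj x.1 y.1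
  symm := ⟨fun _ _ h => ⟨h.1.symm, h.2.symm⟩⟩
  loopless := ⟨fun _ h => h.1 rfl⟩

theorem lab_iso {vs : List Lab} (hn : vs.Nodup) (adj : Lab → Lab → Bool) :
    Nonempty (matGraph (mat vs adj) ≃g labG vs adj) := by
  refine matGraph_iso vs hn adj (labG vs adj) Subtype.val Subtype.val_injective ?_ ?_
  · intro z
    constructor
    · exact fun h => ⟨⟨z, h⟩, rfl⟩
    · rintro ⟨x, rfl⟩; exact x.2
  · intro x y
    unfold labG LAdj
    simp only [ne_eq, Subtype.ext_iff]

theorem nd_lab_le {vs : List Lab} {adj : Lab → Lab → Bool} (z : {z // z ∈ vs}) (T : Finset Lab)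
    (h : ∀ w ∈ vs, LAdj adj z.1 w → w ∈ T) : nd (labG vs adj) z ≤ T.card := by
  unfold nd
  rw [← Set.ncard_image_of_injective _ Subtype.val_injective, ← Set.ncard_coe_finset T]
  refine Set.ncard_le_ncard ?_ (Finset.finite_toSet _)
  rintro _ ⟨w, hw, rfl⟩
  exact h w.1 w.2 hw

theorem sum_lab {vs : List Lab} (hn : vs.Nodup) (f : Lab → ℕ) :
    ∑ c : {z // z ∈ vs}, f c.1 = (vs.map f).sum := by
  classical
  rw [← List.sum_toFinset f hn]
  refine (Finset.sum_subtype vs.toFinset (fun x => List.mem_toFinset) f).symm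

theorem sum_list_range (a : ℕ) (f : ℕ → ℕ) :
    ((List.range a).map f).sum = ∑ i ∈ Finset.range a, f i := by
  induction a with
  | zero => simp
  | succ a ih =>
    rw [List.range_succ, List.map_append, List.sum_append, ih, Finset.sum_range_succ]
    simp

theorem sum_block (t a b : ℕ) (f : Lab → ℕ) :
    ((block t a b).map f).sum = ∑ i ∈ Finset.range a, ∑ j ∈ Finset.range b, f (t, i, j) := by
  unfold block
  rw [← sum_list_range]
  induction List.range a with
  | nil => simp
  | cons i l ih =>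
    rw [List.flatMap_cons, List.map_append, List.sum_append, ih, List.map_cons, List.sum_cons,
      List.map_map, ← sum_list_range]
    rfl

section Leaf

variable {C : Type} [Fintype C]

/-- the graph `H` with `ℓ v` leaves at the vertex `v` -/
def LG (H : SimpleGraph C) (ℓ : C → ℕ) : SimpleGraph (C ⊕ Pl ℓ) where
  Adj
  | Sum.inl x, Sum.inl y => H.Adj x y
  | Sum.inl x, Sum.inr q => q.1 = x
  | Sum.inr q, Sum.inl x => q.1 = x
  | Sum.inr _, Sum.inr _ => False
  symm := ⟨by
    rintro (x | q) (y | q') h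
    · exact H.symm.symm _ _ h
    · exact h
    · exact h
    · exact h⟩
  loopless := ⟨by
    rintro (x | q) h
    · exact H.loopless.irrefl _ h
    · exact h⟩

variable (H : SimpleGraph C) (ℓ : C → ℕ)

theorem lg_ll (x y : C) : (LG H ℓ).Adj (Sum.inl x) (Sum.inl y) ↔ H.Adj x y := Iff.rfl
theorem lg_lr (x : C) (q : Pl ℓ) : (LG H ℓ).Adj (Sum.inl x) (Sum.inr q) ↔ q.1 = x := Iff.rfl
theorem lg_rl (x : C) (q : Pl ℓ) : (LG H ℓ).Adj (Sum.inr q) (Sum.inl x) ↔ q.1 = x := Iff.rfl
theorem lg_rr (q q' : Pl ℓ) : (LG H ℓ).Adj (Sum.inr q) (Sum.inr q') ↔ False := Iff.rfl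

theorem nd_lg_l (x : C) : nd (LG H ℓ) (Sum.inl x) = nd H x + ℓ x := by
  classical
  rw [nd_eq_sum, nd_eq_sum, Fintype.sum_sum_type]
  congr 1
  simp only [lg_lr, Fintype.sum_sigma]
  have : ∀ u : C, (∑ f : Fin (ℓ u), if (⟨u, f⟩ : Pl ℓ).1 = x then 1 else 0) =
      if u = x then ℓ u else 0 := by
    intro u
    by_cases h : u = x <;> simp [h]
  rw [Finset.sum_congr rfl fun u _ => this u]
  simp

theorem nd_lg_r (q : Pl ℓ) : nd (LG H ℓ) (Sum.inr q) = 1 := by
  classical
  rw [nd_eq_sum, Fintype.sum_sum_type]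
  simp only [lg_rl, lg_rr, if_false, Finset.sum_const_zero, add_zero]
  simp

open Classical in
/-- `S` has the right number of neighbours inside -/
def LI (k : ℕ) (S : Finset C) : Prop := ∀ v ∈ S, (S.filter (H.Adj v)).card + ℓ v ≤ k

theorem leaf_KI {k p : ℕ} (hk : 1 ≤ k) : HasKI (LG H ℓ) k (Fintype.card (Pl ℓ) + p) ↔
    ∃ S : Finset C, LI H ℓ k S ∧ p ≤ S.card := by
  classical
  constructor
  · rintro ⟨S, hS, hp⟩
    let S' : Finset C := Finset.univ.filter fun c => Sum.inl c ∈ S ∧
      ∀ j : Fin (ℓ c), (Sum.inr ⟨c, j⟩ : C ⊕ Pl ℓ) ∈ S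
    have hS' : ∀ c, c ∈ S' ↔ Sum.inl c ∈ S ∧ ∀ j : Fin (ℓ c), (Sum.inr ⟨c, j⟩ : C ⊕ Pl ℓ) ∈ S := by
      intro c; simp [S']
    refine ⟨S', ?_, ?_⟩
    · intro c hc
      rw [hS'] at hc
      have h1 := hS _ hc.1
      refine le_trans ?_ h1
      let A : Finset (C ⊕ Pl ℓ) := (S'.filter (H.Adj c)).map ⟨Sum.inl, Sum.inl_injective⟩
      let B : Finset (C ⊕ Pl ℓ) := (Finset.univ : Finset (Fin (ℓ c))).map
        ⟨fun j => Sum.inr ⟨c, j⟩, fun i j h => by simpa using h⟩
      have hA : A.card = (S'.filter (H.Adj c)).card := Finset.card_map _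
      have hB : B.card = ℓ c := by rw [Finset.card_map, Finset.card_univ, Fintype.card_fin]
      have hAB : Disjoint A B := by
        rw [Finset.disjoint_left]
        intro x hx hx'
        obtain ⟨y, _, rfl⟩ := Finset.mem_map.1 hx
        obtain ⟨z, _, hz⟩ := Finset.mem_map.1 hx'
        simp at hz
      rw [← hA, ← hB, ← Finset.card_union_of_disjoint hAB]
      refine Finset.card_le_card ?_
      intro x hx
      rcases Finset.mem_union.1 hx with hx | hx
      · obtain ⟨y, hy, rfl⟩ := Finset.mem_map.1 hx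
        rw [Finset.mem_filter, hS'] at hy
        exact Finset.mem_filter.2 ⟨hy.1.1, hy.2⟩
      · obtain ⟨j, _, rfl⟩ := Finset.mem_map.1 hx
        exact Finset.mem_filter.2 ⟨hc.2 j, rfl⟩
    · have h1 : S.card = ∑ x : C ⊕ Pl ℓ, if x ∈ S then 1 else 0 := by
        rw [← Finset.card_filter]
        congr 1
        ext x
        simp
      have h2 : S'.card = ∑ c : C, if c ∈ S' then 1 else 0 := by
        rw [← Finset.card_filter]
        congr 1
        ext x
        simp
      have h3 : ∀ c : C, (if Sum.inl c ∈ S then 1 else 0) +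
          (∑ j : Fin (ℓ c), if (Sum.inr ⟨c, j⟩ : C ⊕ Pl ℓ) ∈ S then 1 else 0) ≤
          ℓ c + if c ∈ S' then 1 else 0 := by
        intro c
        rw [← Finset.card_filter]
        have h4 : (Finset.univ.filter fun j : Fin (ℓ c) =>
            (Sum.inr ⟨c, j⟩ : C ⊕ Pl ℓ) ∈ S).card ≤ ℓ c := by
          refine (Finset.card_le_univ _).trans ?_
          rw [Fintype.card_fin]
        by_cases hc : c ∈ S'
        · rw [if_pos hc]
          split_ifs <;> omega
        · rw [if_neg hc]
          by_cases hcS : Sum.inl c ∈ S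
          · rw [if_pos hcS]
            rw [hS'] at hc
            push Not at hc
            obtain ⟨j, hj⟩ := hc hcS
            have h5 : (Finset.univ.filter fun j : Fin (ℓ c) =>
              (Sum.inr ⟨c, j⟩ : C ⊕ Pl ℓ) ∈ S).card < (Finset.univ : Finset (Fin (ℓ c))).card := by
              refine Finset.card_lt_card ?_
              rw [Finset.ssubset_univ_iff]
              intro h
              have := Finset.mem_univ j
              rw [← h, Finset.mem_filter] at this
              exact hj this.2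
            rw [Finset.card_univ, Fintype.card_fin] at h5
            omega
          · rw [if_neg hcS]
            omega
      have h4 := Finset.sum_le_sum fun c (_ : c ∈ (Finset.univ : Finset C)) => h3 c
      rw [Finset.sum_add_distrib, Finset.sum_add_distrib, ← h2] at h4
      rw [h1, Fintype.sum_sum_type, Fintype.sum_sigma, Fintype.card_sigma] at hp
      simp only [Fintype.card_fin] at hp
      omega
  · rintro ⟨S, hS, hp⟩
    let S' : Finset (C ⊕ Pl ℓ) := Finset.univ.filter fun x =>
      match x with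
      | Sum.inl c => c ∈ S
      | Sum.inr _ => True
    have hl : ∀ c, (Sum.inl c : C ⊕ Pl ℓ) ∈ S' ↔ c ∈ S := by
      intro c; simp [S']
    have hr : ∀ q, (Sum.inr q : C ⊕ Pl ℓ) ∈ S' := by
      intro q; simp [S']
    refine ⟨S', ?_, ?_⟩
    · rintro (c | q) hx
      · rw [hl] at hx
        refine le_trans ?_ (hS c hx)
        let A : Finset (C ⊕ Pl ℓ) := (S.filter (H.Adj c)).map ⟨Sum.inl, Sum.inl_injective⟩
        let B : Finset (C ⊕ Pl ℓ) := (Finset.univ : Finset (Fin (ℓ c))).map
          ⟨fun j => Sum.inr ⟨c, j⟩, fun i j h => by simpa using h⟩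
        have hA : A.card = (S.filter (H.Adj c)).card := Finset.card_map _
        have hB : B.card = ℓ c := by rw [Finset.card_map, Finset.card_univ, Fintype.card_fin]
        rw [← hA, ← hB]
        refine le_trans (Finset.card_le_card ?_) (Finset.card_union_le A B)
        rintro (c' | ⟨c', j⟩) hx'
        · rw [Finset.mem_filter, hl, lg_ll] at hx'
          exact Finset.mem_union_left _ (Finset.mem_map.2 ⟨c', Finset.mem_filter.2 hx', rfl⟩)
        · rw [Finset.mem_filter, lg_lr] at hx'
          have h : c' = c := hx'.2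
          subst h
          exact Finset.mem_union_right _ (Finset.mem_map.2 ⟨j, Finset.mem_univ _, rfl⟩)
      · have h1 := nd_lg_r H ℓ q
        rw [nd_eq_sum, ← Finset.card_filter] at h1
        refine le_trans (Finset.card_le_card ?_) (h1.le.trans hk)
        intro y hy
        rw [Finset.mem_filter] at hy
        exact Finset.mem_filter.2 ⟨Finset.mem_univ _, hy.2⟩
    · have h1 : S'.card = ∑ x : C ⊕ Pl ℓ, if x ∈ S' then 1 else 0 := by
        rw [← Finset.card_filter]
        congr 1
        ext x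
        simp
      rw [h1, Fintype.sum_sum_type]
      simp only [hl, hr, if_true, Finset.sum_const, Finset.card_univ, smul_eq_mul, mul_one]
      rw [← Finset.card_filter]
      have : (Finset.univ.filter fun x => x ∈ S) = S := by ext x; simp
      rw [this]
      omega

end Leaf

/-! ### Leaves, on the level of matrices -/

/-- the leaves -/
def lvs (k : ℕ) (ℓ : Lab → ℕ) (vs : List Lab) : List Lab :=
  (List.range k).flatMap fun j => (vs.filter fun z => decide (j < ℓ z)).map fun z =>
    (z.1 + 2 * (j + 1), z.2)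

/-- adjacency with the leaves -/
def adjLf (adj : Lab → Lab → Bool) (x y : Lab) : Bool :=
  (decide (x.1 < 2) && (decide (y.1 < 2) && adj x y)) ||
  (decide (x.1 < 2) && (decide (2 ≤ y.1) && (decide (y.1 % 2 = x.1) && decide (y.2 = x.2))))

theorem adjLf_iff (adj : Lab → Lab → Bool) (x y : Lab) : adjLf adj x y = true ↔
    (x.1 < 2 ∧ y.1 < 2 ∧ adj x y = true) ∨
    (x.1 < 2 ∧ 2 ≤ y.1 ∧ y.1 % 2 = x.1 ∧ y.2 = x.2) := by
  unfold adjLf
  simp only [Bool.or_eq_true, Bool.and_eq_true, decide_eq_true_eq]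

/-- label of a vertex -/
def labL (ℓ : Lab → ℕ) (vs : List Lab) :
    {z // z ∈ vs} ⊕ Pl (fun c : {z // z ∈ vs} => ℓ c.1) → Lab
  | Sum.inl c => c.1
  | Sum.inr q => (q.1.1.1 + 2 * (q.2.1 + 1), q.1.1.2)

theorem leaf_iso {k : ℕ} {ℓ : Lab → ℕ} {vs : List Lab} (hn : vs.Nodup)
    (h2 : ∀ z ∈ vs, z.1 < 2) (hℓ : ∀ z ∈ vs, ℓ z ≤ k) (adj : Lab → Lab → Bool) :
    Nonempty (matGraph (mat (vs ++ lvs k ℓ vs) (adjLf adj)) ≃g
      LG (labG vs adj) (fun c : {z // z ∈ vs} => ℓ c.1)) := by
  have hinj : Function.Injective (labL ℓ vs) := by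
    rintro (c | ⟨c, j⟩) (c' | ⟨c', j'⟩) h <;> simp only [labL] at h
    · rw [Subtype.ext h]
    · have h3 := h2 _ c.2
      rw [h] at h3
      simp only at h3
      omega
    · have h3 := h2 _ c'.2
      rw [← h] at h3
      simp only at h3
      omega
    · rw [Prod.mk.injEq] at h
      have h3 := h2 _ c.2
      have h4 := h2 _ c'.2
      have h5 : c = c' := Subtype.ext (Prod.ext (by omega) h.2)
      subst h5
      have h6 : j = j' := Fin.ext (by omega)
      rw [h6]
  refine matGraph_iso _ ?_ _ _ (labL ℓ vs) hinj ?_ ?_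
  · rw [List.nodup_append]
    refine ⟨hn, ?_, ?_⟩
    · unfold lvs
      refine nodup_flatMap_of (fun z => (z.1 - 2) / 2) List.nodup_range ?_ ?_
      · intro j _
        refine (hn.filter _).map ?_
        intro x y hxy
        rw [Prod.mk.injEq] at hxy
        exact Prod.ext (by omega) hxy.2
      · intro j _ z hz
        obtain ⟨x, hx, rfl⟩ := List.mem_map.1 hz
        have := h2 x (List.mem_filter.1 hx).1
        simp only
        omega
    · rintro x hx y hy rfl
      have h3 := h2 x hx
      unfold lvs at hy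
      obtain ⟨j, _, hy⟩ := List.mem_flatMap.1 hy
      obtain ⟨z, _, rfl⟩ := List.mem_map.1 hy
      simp only at h3
      omega
  · intro z
    rw [List.mem_append]
    constructor
    · rintro (h | h)
      · exact ⟨Sum.inl ⟨z, h⟩, rfl⟩
      · unfold lvs at h
        obtain ⟨j, _, h⟩ := List.mem_flatMap.1 h
        obtain ⟨c, hc, rfl⟩ := List.mem_map.1 h
        rw [List.mem_filter, decide_eq_true_eq] at hc
        exact ⟨Sum.inr ⟨⟨c, hc.1⟩, ⟨j, hc.2⟩⟩, rfl⟩
    · rintro ⟨c | ⟨c, j⟩, rfl⟩
      · exact Or.inl c.2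
      · right
        unfold lvs
        refine List.mem_flatMap.2 ⟨j.1, List.mem_range.2 (lt_of_lt_of_le j.2 (hℓ _ c.2)), ?_⟩
        exact List.mem_map.2 ⟨c.1, List.mem_filter.2 ⟨c.2, decide_eq_true j.2⟩, rfl⟩
  · rintro (c | ⟨c, j⟩) (c' | ⟨c', j'⟩)
    · rw [lg_ll]
      have h3 := h2 _ c.2
      have h4 := h2 _ c'.2
      have h5 : ¬ 2 ≤ c.1.1 := by omega
      have h6 : ¬ 2 ≤ c'.1.1 := by omega
      simp only [labL, adjLf_iff, h3, h4, h5, h6, true_and, false_and, and_false, or_false]
      unfold labG LAdj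
      simp only [ne_eq, Sum.inl.injEq, Subtype.ext_iff]
    · rw [lg_lr]
      have h3 := h2 _ c.2
      have h4 := h2 _ c'.2
      simp only [labL, adjLf_iff, ne_eq, reduceCtorEq, not_false_eq_true, true_and]
      constructor
      · intro h
        subst h
        refine Or.inl (Or.inr ⟨h3, by omega, by omega, rfl⟩)
      · rintro ((h | h) | (h | h))
        · omega
        · exact Subtype.ext (Prod.ext (by omega) h.2.2.2)
        · omega
        · omega
    · rw [lg_rl]
      have h3 := h2 _ c.2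
      have h4 := h2 _ c'.2
      simp only [labL, adjLf_iff, ne_eq, reduceCtorEq, not_false_eq_true, true_and]
      constructor
      · intro h
        subst h
        refine Or.inr (Or.inr ⟨h3, by omega, by omega, rfl⟩)
      · rintro ((h | h) | (h | h))
        · omega
        · omega
        · omega
        · exact Subtype.ext (Prod.ext (by omega) h.2.2.2)
    · rw [lg_rr]
      simp only [labL, adjLf_iff, ne_eq]
      constructor
      · exact fun h => h.elim
      · rintro ⟨-, (h | h) | (h | h)⟩ <;> omega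

theorem lvs_poly {α : Type} [TEnc α] (k : ℕ) {ℓ : Lab → ℕ} {vs : α → List Lab} (hℓ : Poly ℓ)
    (hv : Poly vs) : Poly (fun a => lvs k ℓ (vs a)) := by
  unfold lvs
  refine Poly.flatMap (F := fun a j => ((vs a).filter fun z => decide (j < ℓ z)).map fun z =>
    (z.1 + 2 * (j + 1), z.2)) (pc (List.range k)) ?_
  refine pmap (l := fun q : α × ℕ => (vs q.1).filter fun z => decide (q.2 < ℓ z))
    (F := fun (q : α × ℕ) z => (z.1 + 2 * (q.2 + 1), z.2)) ?_ ?_
  · refine Poly.filter (p := fun (q : α × ℕ) z => decide (q.2 < ℓ z)) (hv.comp (Poly.fst Poly.id)) ?_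
    exact Poly.decide_lt (Poly.snd (Poly.fst Poly.id)) (hℓ.comp (Poly.snd Poly.id))
  · exact Poly.pair (padd (Poly.fst (Poly.snd Poly.id)) (pmul (pc 2)
      (padd (Poly.snd (Poly.fst Poly.id)) (pc 1)))) (Poly.snd (Poly.snd Poly.id))

theorem adjLf_poly {α : Type} [TEnc α] {adj : α → Lab → Lab → Bool}
    (h : Poly (fun q : (α × Lab) × Lab => adj q.1.1 q.1.2 q.2)) :
    Poly (fun q : (α × Lab) × Lab => adjLf (adj q.1.1) q.1.2 q.2) := by
  have hx : Poly (fun q : (α × Lab) × Lab => q.1.2) := Poly.snd (Poly.fst Poly.id)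
  have hy : Poly (fun q : (α × Lab) × Lab => q.2) := Poly.snd Poly.id
  unfold adjLf
  refine Poly.or (Poly.and (Poly.decide_lt (Poly.fst hx) (pc 2)) (Poly.and
    (Poly.decide_lt (Poly.fst hy) (pc 2)) h)) ?_
  exact Poly.and (Poly.decide_lt (Poly.fst hx) (pc 2)) (Poly.and
    (Poly.decide_le (pc 2) (Poly.fst hy)) (Poly.and (Poly.decide_eq
    (TG.poly_modc (Poly.fst hy) 2) (Poly.fst hx)) (Poly.decide_eq (Poly.snd hy) (Poly.snd hx))))

end Pool.Agent.Q224.KI
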