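import Pool.Agent.Q224.KI.Leaf

/-!
From 3SAT to `k`-independent sets in graphs of maximum degree `k + 2`
-/

set_option autoImplicit false
set_option linter.unusedSectionVars false

namespace Pool.Agent.Q224.KI

open Pool.Agent.NPC Pool.Agent.H622R2 Q229

open Classical in
/-- indicator of a set of labels -/
noncomputable def bS {vs : List Lab} (S : Finset {z // z ∈ vs}) (z : Lab) : ℕ :=
  if ∃ h : z ∈ vs, (⟨z, h⟩ : {z // z ∈ vs}) ∈ S then 1 else 0

theorem bS_le {vs : List Lab} (S : Finset {z // z ∈ vs}) (z : Lab) : bS S z ≤ 1 := by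
  unfold bS; split_ifs <;> omega

theorem bS_one {vs : List Lab} {S : Finset {z // z ∈ vs}} {z : Lab} (h : bS S z ≠ 0) :
    ∃ h : z ∈ vs, (⟨z, h⟩ : {z // z ∈ vs}) ∈ S := by
  unfold bS at h
  by_contra hcon
  rw [if_neg hcon] at h
  exact h rfl

theorem bS_mem {vs : List Lab} {S : Finset {z // z ∈ vs}} {z : Lab} (h : z ∈ vs)
    (hz : (⟨z, h⟩ : {z // z ∈ vs}) ∈ S) : bS S z = 1 := by
  unfold bS
  rw [if_pos ⟨h, hz⟩]

theorem card_bS {vs : List Lab} (hn : vs.Nodup) (S : Finset {z // z ∈ vs}) :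
    S.card = (vs.map (bS S)).sum := by
  classical
  rw [← sum_lab hn]
  have h1 : S.card = ∑ x : {z // z ∈ vs}, if x ∈ S then 1 else 0 := by
    rw [← Finset.card_filter]
    congr 1
    ext x
    simp
  rw [h1]
  refine Finset.sum_congr rfl fun c _ => ?_
  by_cases h : c ∈ S
  · rw [if_pos h, bS_mem c.2 h]
  · rw [if_neg h]
    by_contra hcon
    obtain ⟨h1, h2⟩ := bS_one (Ne.symm hcon)
    exact h h2

theorem LI_one {C : Type} {H : SimpleGraph C} {ℓ : C → ℕ} {k : ℕ} {S : Finset C}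
    (h : LI H ℓ k S) {v w : C} (hv : v ∈ S) (hw : w ∈ S) (ha : H.Adj v w) : 1 + ℓ v ≤ k := by
  classical
  have h1 := h v hv
  have h2 : 1 ≤ (S.filter (H.Adj v)).card := Finset.card_pos.2 ⟨w, Finset.mem_filter.2 ⟨hw, ha⟩⟩
  have h3 : (S.filter (H.Adj v)).card = @Finset.card C (@Finset.filter C (H.Adj v)
    (fun a => Classical.propDecidable _) S) := by congr
  omega

theorem LI_two {C : Type} {H : SimpleGraph C} {ℓ : C → ℕ} {k : ℕ} {S : Finset C}
    (h : LI H ℓ k S) {v w w' : C} (hv : v ∈ S) (hw : w ∈ S) (hw' : w' ∈ S) (hne : w ≠ w')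
    (ha : H.Adj v w) (ha' : H.Adj v w') : 2 + ℓ v ≤ k := by
  classical
  have h1 := h v hv
  have h2 : 2 ≤ (S.filter (H.Adj v)).card := by
    refine le_trans (le_of_eq (Finset.card_pair hne).symm) (Finset.card_le_card ?_)
    intro z hz
    rw [Finset.mem_insert, Finset.mem_singleton] at hz
    rcases hz with rfl | rfl
    · exact Finset.mem_filter.2 ⟨hw, ha⟩
    · exact Finset.mem_filter.2 ⟨hw', ha'⟩
  have h3 : (S.filter (H.Adj v)).card = @Finset.card C (@Finset.filter C (H.Adj v)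
    (fun a => Classical.propDecidable _) S) := by congr
  omega

/-- alternating sets in even cycles -/
theorem cyc (h : ℕ) (hh : 1 ≤ h) (b : ℕ → ℕ) (h1 : ∀ t, t + 1 < 2 * h → b t + b (t + 1) ≤ 1)
    (h2 : b (2 * h - 1) + b 0 ≤ 1) :
    ∑ t ∈ Finset.range (2 * h), b t ≤ h ∧
    (h ≤ ∑ t ∈ Finset.range (2 * h), b t → ∀ s < h, b (2 * s) = b 0 ∧ b (2 * s + 1) + b 0 = 1) := by
  have hs : ∀ n, ∑ t ∈ Finset.range (2 * n), b t =
      ∑ s ∈ Finset.range n, (b (2 * s) + b (2 * s + 1)) := by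
    intro n
    induction n with
    | zero => simp
    | succ n ih =>
      rw [show 2 * (n + 1) = 2 * n + 1 + 1 by ring, Finset.sum_range_succ, Finset.sum_range_succ, ih,
        Finset.sum_range_succ, add_assoc]
  have hp : ∀ s ∈ Finset.range h, b (2 * s) + b (2 * s + 1) ≤ 1 := by
    intro s hs
    rw [Finset.mem_range] at hs
    exact h1 _ (by omega)
  have hle : ∑ s ∈ Finset.range h, (b (2 * s) + b (2 * s + 1)) ≤ ∑ s ∈ Finset.range h, 1 :=
    Finset.sum_le_sum hp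
  rw [hs]
  have hc : ∑ s ∈ Finset.range h, 1 = h := by simp
  refine ⟨by omega, fun hge => ?_⟩
  have heq := (Finset.sum_eq_sum_iff_of_le hp).1 (by omega)
  have heq' : ∀ s < h, b (2 * s) + b (2 * s + 1) = 1 := fun s hs => heq s (Finset.mem_range.2 hs)
  have hmono : ∀ s, s < h → ∀ s' ≤ s, b (2 * s) ≤ b (2 * s') := by
    intro s
    induction s with
    | zero =>
      intro _ s' hs'
      have : s' = 0 := by omega
      rw [this]
    | succ s ih =>
      intro hs s' hs'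
      by_cases h4 : s' = s + 1
      · rw [h4]
      · have h5 := ih (by omega) s' (by omega)
        have h6 := heq' s (by omega)
        have h7 := h1 (2 * s + 1) (by omega)
        rw [show 2 * s + 1 + 1 = 2 * (s + 1) by ring] at h7
        omega
  intro s hs
  have h4 := hmono s hs 0 (Nat.zero_le _)
  have h5 := hmono (h - 1) (by omega) s (by omega)
  have h6 := heq' (h - 1) (by omega)
  rw [show 2 * (h - 1) + 1 = 2 * h - 1 by omega] at h6
  have h7 := heq' s hs
  rw [Nat.mul_zero] at h4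
  omega

/-- the position of the port of the literal number `e` -/
def prt (φ : List TG.Cl) (e : ℕ) : ℕ := 6 * e + if (TG.ocf φ e).1 then 3 else 0

/-- the vertices of the core -/
def vsC (φ : List TG.Cl) : List Lab :=
  block 0 (3 * φ.length) (6 * (3 * φ.length)) ++ (block 1 (3 * φ.length) 2 ++ [])

/-- adjacency in the core -/
def adjC (φ : List TG.Cl) (x y : Lab) : Bool :=
  (decide (x.1 = 0) && (decide (y.1 = 0) && (decide (x.2.1 = y.2.1) &&
    (decide (y.2.2 = x.2.2 + 1) ||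
      (decide (y.2.2 = 0) && decide (x.2.2 + 1 = 6 * (3 * φ.length))))))) ||
  ((decide (x.1 = 1) && (decide (y.1 = 1) && (decide (x.2.1 = y.2.1) &&
    (decide (x.2.2 = 0) && decide (y.2.2 = 1))))) ||
  ((decide (x.1 = 1) && (decide (y.1 = 1) && (decide (x.2.2 = 1) &&
    (decide (y.2.2 = 1) && decide (x.2.1 / 3 = y.2.1 / 3))))) ||
  (decide (x.1 = 1) && (decide (x.2.2 = 0) && (decide (y.1 = 0) &&
    (decide (y.2.1 = (TG.ocf φ x.2.1).2) && decide (y.2.2 = prt φ x.2.1)))))))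

theorem adjC_iff (φ : List TG.Cl) (x1 x2 x3 y1 y2 y3 : ℕ) :
    adjC φ (x1, x2, x3) (y1, y2, y3) = true ↔
    (x1 = 0 ∧ y1 = 0 ∧ x2 = y2 ∧ (y3 = x3 + 1 ∨ (y3 = 0 ∧ x3 + 1 = 6 * (3 * φ.length)))) ∨
    (x1 = 1 ∧ y1 = 1 ∧ x2 = y2 ∧ x3 = 0 ∧ y3 = 1) ∨
    (x1 = 1 ∧ y1 = 1 ∧ x3 = 1 ∧ y3 = 1 ∧ x2 / 3 = y2 / 3) ∨
    (x1 = 1 ∧ x3 = 0 ∧ y1 = 0 ∧ y2 = (TG.ocf φ x2).2 ∧ y3 = prt φ x2) := by
  unfold adjC
  simp only [Bool.or_eq_true, Bool.and_eq_true, decide_eq_true_eq]

/-- the number of leaves -/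
def elC (k : ℕ) (z : Lab) : ℕ :=
  if z.1 = 0 then (if z.2.2 % 3 = 0 then k - 1 else k) else (if z.2.2 = 0 then k else k - 1)

theorem mem_vsC {φ : List TG.Cl} {z : Lab} : z ∈ vsC φ ↔
    (z.1 = 0 ∧ z.2.1 < 3 * φ.length ∧ z.2.2 < 6 * (3 * φ.length)) ∨
    (z.1 = 1 ∧ z.2.1 < 3 * φ.length ∧ z.2.2 < 2) := by
  unfold vsC
  simp only [List.mem_append, mem_block, List.not_mem_nil, or_false]

theorem vsC_nodup (φ : List TG.Cl) : (vsC φ).Nodup := by
  unfold vsC
  refine block_append_nodup (block_append_nodup List.nodup_nil ?_) ?_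
  · intro z hz
    exact absurd hz (List.not_mem_nil)
  · intro z hz
    rw [List.append_nil, mem_block] at hz
    omega

theorem vsC_tag {φ : List TG.Cl} : ∀ z ∈ vsC φ, z.1 < 2 := by
  intro z hz
  rw [mem_vsC] at hz
  omega

theorem elC_le {k : ℕ} (z : Lab) : elC k z ≤ k := by
  unfold elC
  split_ifs <;> omega

theorem sum_vsC (φ : List TG.Cl) (f : Lab → ℕ) : ((vsC φ).map f).sum =
    (∑ x ∈ Finset.range (3 * φ.length), ∑ t ∈ Finset.range (6 * (3 * φ.length)), f (0, x, t)) +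
    ∑ e ∈ Finset.range (3 * φ.length), (f (1, e, 0) + f (1, e, 1)) := by
  unfold vsC
  rw [List.append_nil, List.map_append, List.sum_append, sum_block, sum_block]
  refine congrArg₂ _ rfl (Finset.sum_congr rfl fun e _ => ?_)
  rw [Finset.sum_range_succ, Finset.sum_range_one]

/-- soundness -/
theorem core_sound {φ : List TG.Cl} (hb : Bounded3 φ) (hne : φ ≠ []) {k : ℕ} (hk : 1 ≤ k)
    (S : Finset {z // z ∈ vsC φ})
    (hS : LI (labG (vsC φ) (adjC φ)) (fun c => elC k c.1) k S)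
    (hc : 3 * φ.length * (3 * (3 * φ.length)) + 3 * φ.length ≤ S.card) : SAT3 φ := by
  have hm : 0 < φ.length := List.length_pos_iff.2 hne
  rw [card_bS (vsC_nodup φ), sum_vsC] at hc
  have hocf : ∀ e < 3 * φ.length, (TG.ocf φ e).2 < 3 * φ.length := (TG.ctx hb hne).bd
  set n := 3 * φ.length with hn
  have hb1 : ∀ z, bS S z ≤ 1 := bS_le S
  have hb2 : ∀ z, bS S z ≠ 0 → ∃ h : z ∈ vsC φ, (⟨z, h⟩ : {z // z ∈ vsC φ}) ∈ S :=
    fun z h => bS_one h
  generalize bS S = b at *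
  have hmem : ∀ z, z ∈ vsC φ ↔ (z.1 = 0 ∧ z.2.1 < n ∧ z.2.2 < 6 * n) ∨
    (z.1 = 1 ∧ z.2.1 < n ∧ z.2.2 < 2) := fun z => mem_vsC
  -- independence
  have hind : ∀ z w : Lab, LAdj (adjC φ) z w → (elC k z = k ∨ elC k w = k) → b z + b w ≤ 1 := by
    intro z w hzw hor
    by_contra hcon
    have h1 := hb1 z
    have h2 := hb1 w
    obtain ⟨hz, hzS⟩ := hb2 z (by omega)
    obtain ⟨hw, hwS⟩ := hb2 w (by omega)
    rcases hor with h | h
    · have := LI_one hS hzS hwS hzw
      simp only at this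
      omega
    · have := LI_one hS hwS hzS ⟨hzw.1.symm, hzw.2.symm⟩
      simp only at this
      omega
  have hcyc : ∀ x < n, ∑ t ∈ Finset.range (2 * (3 * n)), b (0, x, t) ≤ 3 * n ∧
      (3 * n ≤ ∑ t ∈ Finset.range (2 * (3 * n)), b (0, x, t) → ∀ s < 3 * n,
        b (0, x, 2 * s) = b (0, x, 0) ∧ b (0, x, 2 * s + 1) + b (0, x, 0) = 1) := by
    intro x _
    refine cyc (3 * n) (by omega) (fun t => b (0, x, t)) ?_ ?_
    · intro t ht
      refine hind _ _ ⟨by simp, Or.inl ?_⟩ ?_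
      · rw [adjC_iff]
        exact Or.inl ⟨rfl, rfl, rfl, Or.inl rfl⟩
      · unfold elC
        simp only [if_true]
        by_cases h3 : t % 3 = 0
        · right
          rw [if_neg (by omega)]
        · left
          rw [if_neg h3]
    · refine hind _ _ ⟨by simp only [ne_eq, Prod.mk.injEq, true_and]; omega, Or.inl ?_⟩ ?_
      · rw [adjC_iff]
        exact Or.inl ⟨rfl, rfl, rfl, Or.inr ⟨rfl, by omega⟩⟩
      · unfold elC
        simp only [if_true]
        left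
        rw [if_neg (by omega)]
  have hqt : ∀ e ∈ Finset.range n, b (1, e, 0) + b (1, e, 1) ≤ 1 := by
    intro e _
    refine hind _ _ ⟨by simp, Or.inl ?_⟩ (Or.inl ?_)
    · rw [adjC_iff]
      exact Or.inr (Or.inl ⟨rfl, rfl, rfl, rfl, rfl⟩)
    · simp [elC]
  have h6 : 6 * n = 2 * (3 * n) := by ring
  rw [h6] at hc
  have hle1 : ∀ x ∈ Finset.range n, ∑ t ∈ Finset.range (2 * (3 * n)), b (0, x, t) ≤ 3 * n :=
    fun x hx => (hcyc x (Finset.mem_range.1 hx)).1
  have hs1 := Finset.sum_le_sum hle1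
  have hs2 := Finset.sum_le_sum hqt
  have hc1 : ∑ x ∈ Finset.range n, 3 * n = n * (3 * n) := by simp
  have hc2 : ∑ x ∈ Finset.range n, 1 = n := by simp
  have heq1 := (Finset.sum_eq_sum_iff_of_le hle1).1 (by omega)
  have heq2 := (Finset.sum_eq_sum_iff_of_le hqt).1 (by omega)
  have hst : ∀ x < n, ∀ s < 3 * n,
      b (0, x, 2 * s) = b (0, x, 0) ∧ b (0, x, 2 * s + 1) + b (0, x, 0) = 1 :=
    fun x hx => (hcyc x hx).2 (heq1 x (Finset.mem_range.2 hx)).ge
  rw [TG.sat_iff]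
  refine ⟨fun x => decide (b (0, x, 0) = 1), fun i hi => ?_⟩
  -- one of the `q`s belongs to the set
  obtain ⟨j, hj, hq⟩ : ∃ j < 3, b (1, 3 * i + j, 0) = 1 := by
    by_contra hcon
    push Not at hcon
    have ht : ∀ j < 3, b (1, 3 * i + j, 1) = 1 := by
      intro j hj
      have h1 := heq2 (3 * i + j) (Finset.mem_range.2 (by omega))
      have h2 := hcon j hj
      have h3 := hb1 (1, 3 * i + j, 0)
      omega
    obtain ⟨h0, h0'⟩ := hb2 (1, 3 * i + 0, 1) (by
      have := ht 0 (by omega); omega)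
    obtain ⟨h1, h1'⟩ := hb2 (1, 3 * i + 1, 1) (by
      have := ht 1 (by omega); omega)
    obtain ⟨h2, h2'⟩ := hb2 (1, 3 * i + 2, 1) (by
      have := ht 2 (by omega); omega)
    have h3 := LI_two hS h0' h1' h2' (by simp) (by
      refine ⟨by simp, Or.inl ?_⟩
      rw [adjC_iff]
      exact Or.inr (Or.inr (Or.inl ⟨rfl, rfl, rfl, rfl, by omega⟩))) (by
      refine ⟨by simp, Or.inl ?_⟩
      rw [adjC_iff]
      exact Or.inr (Or.inr (Or.inl ⟨rfl, rfl, rfl, rfl, by omega⟩)))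
    simp only [elC] at h3
    simp at h3
    omega
  refine ⟨j, hj, ?_⟩
  have hx := hocf (3 * i + j) (by omega)
  -- its port does not
  have h1 : b (1, 3 * i + j, 0) + b (0, (TG.ocf φ (3 * i + j)).2, prt φ (3 * i + j)) ≤ 1 := by
    refine hind _ _ ⟨by simp, Or.inl ?_⟩ (Or.inl ?_)
    · rw [adjC_iff]
      exact Or.inr (Or.inr (Or.inr ⟨rfl, rfl, rfl, rfl, rfl⟩))
    · simp [elC]
  by_cases hsg : (TG.ocf φ (3 * i + j)).1 = true
  · rw [hsg]
    simp only [decide_eq_true_eq]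
    have h2 := (hst _ hx (3 * (3 * i + j) + 1) (by omega)).2
    have h3 : prt φ (3 * i + j) = 2 * (3 * (3 * i + j) + 1) + 1 := by
      unfold prt
      rw [if_pos hsg]
      ring
    rw [h3] at h1
    omega
  · have hsg' : (TG.ocf φ (3 * i + j)).1 = false := by simpa using hsg
    rw [hsg']
    simp only [decide_eq_false_iff_not]
    have h2 := (hst _ hx (3 * (3 * i + j)) (by omega)).1
    have h3 : prt φ (3 * i + j) = 2 * (3 * (3 * i + j)) := by
      unfold prt
      rw [if_neg hsg]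
      ring
    rw [h3] at h1
    omega

theorem prt_cases (φ : List TG.Cl) (e : ℕ) :
    ((TG.ocf φ e).1 = true ∧ prt φ e = 6 * e + 3) ∨ ((TG.ocf φ e).1 = false ∧ prt φ e = 6 * e) := by
  unfold prt
  by_cases h : (TG.ocf φ e).1 = true
  · left; rw [if_pos h]; exact ⟨h, rfl⟩
  · right; rw [if_neg h]; exact ⟨by simpa using h, rfl⟩

/-- the set of a satisfying assignment -/
def FF (τ : ℕ → Bool) (j0 : ℕ → ℕ) (z : Lab) : Prop :=
  (z.1 = 0 ∧ ((τ z.2.1 = true ∧ z.2.2 % 2 = 0) ∨ (τ z.2.1 = false ∧ z.2.2 % 2 = 1))) ∨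
  (z.1 = 1 ∧ ((z.2.2 = 0 ∧ z.2.1 % 3 = j0 (z.2.1 / 3)) ∨
    (z.2.2 = 1 ∧ z.2.1 % 3 ≠ j0 (z.2.1 / 3))))

theorem FF_adj {φ : List TG.Cl} {τ : ℕ → Bool} {j0 : ℕ → ℕ}
    (hj : ∀ d < φ.length, j0 d < 3 ∧ τ (TG.ocf φ (3 * d + j0 d)).2 = (TG.ocf φ (3 * d + j0 d)).1)
    {z w : Lab} (hz : z ∈ vsC φ) (hw : w ∈ vsC φ) (hFz : FF τ j0 z) (hFw : FF τ j0 w)
    (h : adjC φ z w = true) :
    z.1 = 1 ∧ z.2.2 = 1 ∧ w.1 = 1 ∧ w.2.2 = 1 ∧ z.2.1 / 3 = w.2.1 / 3 := by
  obtain ⟨z1, z2, z3⟩ := z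
  obtain ⟨w1, w2, w3⟩ := w
  rw [mem_vsC] at hz hw
  rw [adjC_iff] at h
  unfold FF at hFz hFw
  simp only at hz hw hFz hFw ⊢
  rcases h with ⟨h1, h2, h3, h4⟩ | ⟨h1, h2, h3, h4, h5⟩ | ⟨h1, h2, h3, h4, h5⟩ | ⟨h1, h2, h3, h4, h5⟩
  · exfalso
    subst h3
    rcases hFz with ⟨_, h5 | h5⟩ | h5
    · rcases hFw with ⟨_, h6 | h6⟩ | h6
      · omega
      · rw [h5.1] at h6; exact absurd h6.1 (by simp)
      · omega
    · rcases hFw with ⟨_, h6 | h6⟩ | h6
      · rw [h5.1] at h6; exact absurd h6.1 (by simp)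
      · omega
      · omega
    · omega
  · exfalso
    subst h3
    omega
  · exact ⟨h1, h3, h2, h4, h5⟩
  · exfalso
    have h6 : z2 % 3 = j0 (z2 / 3) := by omega
    have h7 : z2 / 3 < φ.length := by omega
    have h8 := (hj _ h7).2
    rw [← h6, show 3 * (z2 / 3) + z2 % 3 = z2 by omega, ← h4] at h8
    rcases hFw with ⟨_, hF⟩ | hF
    · rcases prt_cases φ z2 with ⟨h9, h10⟩ | ⟨h9, h10⟩
      · rw [h9] at h8
        rcases hF with hF | hF
        · omega
        · rw [h8] at hF; exact absurd hF.1 (by simp)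
      · rw [h9] at h8
        rcases hF with hF | hF
        · rw [h8] at hF; exact absurd hF.1 (by simp)
        · omega
    · omega

theorem sum_pairs (b : ℕ → ℕ) (n : ℕ) : ∑ t ∈ Finset.range (2 * n), b t =
      ∑ s ∈ Finset.range n, (b (2 * s) + b (2 * s + 1)) := by
  induction n with
  | zero => simp
  | succ n ih =>
    rw [show 2 * (n + 1) = 2 * n + 1 + 1 by ring, Finset.sum_range_succ, Finset.sum_range_succ, ih,
      Finset.sum_range_succ, add_assoc]

/-- completeness -/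
theorem core_complete {φ : List TG.Cl} {k : ℕ} (hk : 1 ≤ k) (h : SAT3 φ) :
    ∃ S : Finset {z // z ∈ vsC φ}, LI (labG (vsC φ) (adjC φ)) (fun c => elC k c.1) k S ∧
    3 * φ.length * (3 * (3 * φ.length)) + 3 * φ.length ≤ S.card := by
  classical
  rw [TG.sat_iff] at h
  obtain ⟨τ, hτ⟩ := h
  have : ∀ d, ∃ j, d < φ.length → j < 3 ∧ τ (TG.ocf φ (3 * d + j)).2 = (TG.ocf φ (3 * d + j)).1 := by
    intro d
    by_cases hd : d < φ.length
    · obtain ⟨j, hj⟩ := hτ d hd
      exact ⟨j, fun _ => hj⟩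
    · exact ⟨0, fun h => absurd h hd⟩
  choose j0 hj0 using this
  let S : Finset {z // z ∈ vsC φ} := Finset.univ.filter fun c => FF τ j0 c.1
  have hS : ∀ c, c ∈ S ↔ FF τ j0 c.1 := fun c => by simp [S]
  refine ⟨S, ?_, ?_⟩
  · intro v hv
    have hv' := (hS v).1 hv
    have hadj : ∀ w ∈ S, (labG (vsC φ) (adjC φ)).Adj v w → v.1.1 = 1 ∧ v.1.2.2 = 1 ∧ w.1.1 = 1 ∧
        w.1.2.2 = 1 ∧ v.1.2.1 / 3 = w.1.2.1 / 3 ∧ v.1 ≠ w.1 := by
      intro w hw ha
      have hw' := (hS w).1 hw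
      obtain ⟨hne, h1 | h1⟩ := ha
      · obtain ⟨h2, h3, h4, h5, h6⟩ := FF_adj hj0 v.2 w.2 hv' hw' h1
        exact ⟨h2, h3, h4, h5, h6, hne⟩
      · obtain ⟨h2, h3, h4, h5, h6⟩ := FF_adj hj0 w.2 v.2 hw' hv' h1
        exact ⟨h4, h5, h2, h3, h6.symm, hne⟩
    by_cases hv1 : v.1.1 = 1 ∧ v.1.2.2 = 1
    · have h1 : elC k v.1 = k - 1 := by
        unfold elC
        rw [if_neg (by omega), if_neg (by omega)]
      have h2 : (S.filter ((labG (vsC φ) (adjC φ)).Adj v)).card ≤ 1 := by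
        rw [Finset.card_le_one]
        intro a ha b hb
        rw [Finset.mem_filter] at ha hb
        have ha1 := hadj a ha.1 ha.2
        have hb1 := hadj b hb.1 hb.2
        have ha2 := (hS a).1 ha.1
        have hb2 := (hS b).1 hb.1
        unfold FF at ha2 hb2 hv'
        have e1 : a.1.2.1 / 3 = v.1.2.1 / 3 := by omega
        have e2 : b.1.2.1 / 3 = v.1.2.1 / 3 := by omega
        rw [e1] at ha2
        rw [e2] at hb2
        have e3 : v.1.2.1 ≠ a.1.2.1 := fun h => ha1.2.2.2.2.2 (Prod.ext (by omega)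
          (Prod.ext h (by omega)))
        have e4 : v.1.2.1 ≠ b.1.2.1 := fun h => hb1.2.2.2.2.2 (Prod.ext (by omega)
          (Prod.ext h (by omega)))
        have hj3 : j0 (v.1.2.1 / 3) < 3 := by
          have hv2 := v.2
          rw [mem_vsC] at hv2
          exact (hj0 _ (by omega)).1
        refine Subtype.ext (Prod.ext (by omega) (Prod.ext ?_ (by omega)))
        omega
      have h3 : (S.filter ((labG (vsC φ) (adjC φ)).Adj v)).card =
          @Finset.card _ (@Finset.filter _ ((labG (vsC φ) (adjC φ)).Adj v)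
          (fun a => Classical.propDecidable _) S) := by congr
      simp only
      omega
    · have h2 : @Finset.filter _ ((labG (vsC φ) (adjC φ)).Adj v)
          (fun a => Classical.propDecidable _) S = ∅ := by
        rw [Finset.filter_eq_empty_iff]
        intro w hw ha
        have := hadj w hw ha
        omega
      rw [h2, Finset.card_empty]
      have := elC_le (k := k) v.1
      simp only
      omega
  · have h1 : S.card = ((vsC φ).map fun z => if FF τ j0 z then 1 else 0).sum := by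
      rw [← sum_lab (vsC_nodup φ), ← Finset.card_filter]
    rw [h1, sum_vsC]
    refine Nat.add_le_add ?_ ?_
    · have h2 : ∀ x ∈ Finset.range (3 * φ.length), 3 * (3 * φ.length) ≤
          ∑ t ∈ Finset.range (6 * (3 * φ.length)), if FF τ j0 (0, x, t) then 1 else 0 := by
        intro x _
        rw [show 6 * (3 * φ.length) = 2 * (3 * (3 * φ.length)) by ring, sum_pairs]
        refine le_trans (le_of_eq (by simp)) (Finset.sum_le_sum (f := fun _ => 1) fun s _ => ?_)
        by_cases hx : τ x = true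
        · have : FF τ j0 (0, x, 2 * s) := Or.inl ⟨rfl, Or.inl ⟨hx, by simp⟩⟩
          rw [if_pos this]
          omega
        · have : FF τ j0 (0, x, 2 * s + 1) := Or.inl ⟨rfl, Or.inr ⟨by simpa using hx, by
            simp only; omega⟩⟩
          rw [if_pos this]
          omega
      refine le_trans (le_of_eq (by simp)) (Finset.sum_le_sum h2)
    · refine le_trans (le_of_eq (by simp)) (Finset.sum_le_sum (f := fun _ => 1) fun e _ => ?_)
      by_cases he : e % 3 = j0 (e / 3)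
      · have : FF τ j0 (1, e, 0) := Or.inr ⟨rfl, Or.inl ⟨rfl, he⟩⟩
        rw [if_pos this]
        omega
      · have : FF τ j0 (1, e, 1) := Or.inr ⟨rfl, Or.inr ⟨rfl, he⟩⟩
        rw [if_pos this]
        omega

/-- degrees -/
theorem core_deg (φ : List TG.Cl) {k : ℕ} (hk : 1 ≤ k) :
    ∀ x, nd (LG (labG (vsC φ) (adjC φ)) (fun c => elC k c.1)) x ≤ k + 2 := by
  rintro (c | q)
  · rw [nd_lg_l]
    obtain ⟨⟨c1, c2, c3⟩, hc⟩ := c
    change nd _ _ + elC k (c1, c2, c3) ≤ k + 2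
    have hc' := mem_vsC.1 hc
    simp only at hc'
    set n := 3 * φ.length
    have hcases : (c1 = 0 ∧ c3 % 3 = 0) ∨ (c1 = 0 ∧ c3 % 3 ≠ 0) ∨ (c1 = 1 ∧ c3 = 0) ∨
      (c1 = 1 ∧ c3 = 1) := by omega
    rcases hcases with ⟨rfl, h3⟩ | ⟨rfl, h3⟩ | ⟨rfl, rfl⟩ | ⟨rfl, rfl⟩
    · have h1 : elC k (0, c2, c3) = k - 1 := by simp [elC, h3]
      have h2 := nd_lab_le (vs := vsC φ) (adj := adjC φ) ⟨(0, c2, c3), hc⟩
        {(0, c2, if c3 + 1 = 6 * n then 0 else c3 + 1), (0, c2, if c3 = 0 then 6 * n - 1 else c3 - 1),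
          (1, c3 / 6, 0)} (by
          rintro ⟨w1, w2, w3⟩ hw ⟨hne, ha⟩
          rw [mem_vsC] at hw
          simp only at hw
          simp only [Finset.mem_insert, Finset.mem_singleton, Prod.mk.injEq]
          rw [adjC_iff, adjC_iff] at ha
          have hp := prt_cases φ w2
          split_ifs <;> omega)
      have h4 := Finset.card_le_three (a := ((0, c2, if c3 + 1 = 6 * n then 0 else c3 + 1) : Lab))
        (b := (0, c2, if c3 = 0 then 6 * n - 1 else c3 - 1)) (c := (1, c3 / 6, 0))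
      omega
    · have h1 : elC k (0, c2, c3) = k := by simp [elC, h3]
      have h2 := nd_lab_le (vs := vsC φ) (adj := adjC φ) ⟨(0, c2, c3), hc⟩
        {(0, c2, if c3 + 1 = 6 * n then 0 else c3 + 1),
          (0, c2, if c3 = 0 then 6 * n - 1 else c3 - 1)} (by
          rintro ⟨w1, w2, w3⟩ hw ⟨hne, ha⟩
          rw [mem_vsC] at hw
          simp only at hw
          simp only [Finset.mem_insert, Finset.mem_singleton, Prod.mk.injEq]
          rw [adjC_iff, adjC_iff] at ha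
          have hp := prt_cases φ w2
          split_ifs <;> omega)
      have h4 := Finset.card_le_two (a := ((0, c2, if c3 + 1 = 6 * n then 0 else c3 + 1) : Lab))
        (b := (0, c2, if c3 = 0 then 6 * n - 1 else c3 - 1))
      omega
    · have h1 : elC k (1, c2, 0) = k := by simp [elC]
      have h2 := nd_lab_le (vs := vsC φ) (adj := adjC φ) ⟨(1, c2, 0), hc⟩
        {(1, c2, 1), (0, (TG.ocf φ c2).2, prt φ c2)} (by
          rintro ⟨w1, w2, w3⟩ hw ⟨hne, ha⟩
          rw [mem_vsC] at hw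
          simp only at hw
          simp only [Finset.mem_insert, Finset.mem_singleton, Prod.mk.injEq]
          rw [adjC_iff, adjC_iff] at ha
          omega)
      have h4 := Finset.card_le_two (a := ((1, c2, 1) : Lab)) (b := (0, (TG.ocf φ c2).2, prt φ c2))
      omega
    · have h1 : elC k (1, c2, 1) = k - 1 := by simp [elC]
      have h2 := nd_lab_le (vs := vsC φ) (adj := adjC φ) ⟨(1, c2, 1), hc⟩
        {(1, c2, 0), (1, 3 * (c2 / 3) + (c2 + 1) % 3, 1), (1, 3 * (c2 / 3) + (c2 + 2) % 3, 1)} (by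
          rintro ⟨w1, w2, w3⟩ hw ⟨hne, ha⟩
          rw [mem_vsC] at hw
          simp only at hw
          simp only [ne_eq, Prod.mk.injEq] at hne
          simp only [Finset.mem_insert, Finset.mem_singleton, Prod.mk.injEq]
          rw [adjC_iff, adjC_iff] at ha
          omega)
      have h4 := Finset.card_le_three (a := ((1, c2, 0) : Lab))
        (b := (1, 3 * (c2 / 3) + (c2 + 1) % 3, 1)) (c := (1, 3 * (c2 / 3) + (c2 + 2) % 3, 1))
      omega
  · rw [nd_lg_r]
    omega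

/-- the vertices, with the leaves -/
def vsA (k : ℕ) (φ : List TG.Cl) : List Lab := vsC φ ++ lvs k (elC k) (vsC φ)

/-- the matrix -/
def mA (k : ℕ) (φ : List TG.Cl) : List (List Bool) := mat (vsA k φ) (adjLf (adjC φ))

/-- the threshold -/
def pA (k : ℕ) (φ : List TG.Cl) : ℕ :=
  ((vsC φ).map (elC k)).sum + (3 * φ.length * (3 * (3 * φ.length)) + 3 * φ.length)

theorem mA_deg (φ : List TG.Cl) {k : ℕ} (hk : 1 ≤ k) : ∀ v, nd (matGraph (mA k φ)) v ≤ k + 2 := by
  obtain ⟨e⟩ := leaf_iso (k := k) (ℓ := elC k) (vsC_nodup φ) vsC_tag (fun z _ => elC_le z) (adjC φ)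
  intro v
  have := core_deg φ hk (e v)
  exact (nd_iso e v).symm.le.trans this

theorem mA_iff {φ : List TG.Cl} (hb : Bounded3 φ) (hne : φ ≠ []) {k : ℕ} (hk : 1 ≤ k) :
    HasKI (matGraph (mA k φ)) k (pA k φ) ↔ SAT3 φ := by
  obtain ⟨e⟩ := leaf_iso (k := k) (ℓ := elC k) (vsC_nodup φ) vsC_tag (fun z _ => elC_le z) (adjC φ)
  unfold mA vsA
  rw [hasKI_iso_iff e]
  have h1 : pA k φ = Fintype.card (Pl (fun c : {z // z ∈ vsC φ} => elC k c.1)) +
      (3 * φ.length * (3 * (3 * φ.length)) + 3 * φ.length) := by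
    unfold pA
    rw [Fintype.card_sigma, ← sum_lab (vsC_nodup φ)]
    simp only [Fintype.card_fin]
  rw [h1, leaf_KI _ _ hk]
  constructor
  · rintro ⟨S, hS, hc⟩
    exact core_sound hb hne hk S hS hc
  · exact core_complete hk

theorem pA_pos {φ : List TG.Cl} (hne : φ ≠ []) (k : ℕ) : 1 ≤ pA k φ := by
  have := List.length_pos_iff.2 hne
  unfold pA
  omega

theorem vsC_poly : Poly vsC := by
  have hn : UPoly (fun φ : List TG.Cl => 3 * φ.length) := (UPoly.const 3).mul (UPoly.length Poly.id)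
  unfold vsC
  exact Poly.append (block_poly 0 hn ((UPoly.const 6).mul hn))
    (Poly.append (block_poly 1 hn (UPoly.const 2)) (pc []))

theorem prt_poly {α : Type} [TEnc α] {φ : α → List TG.Cl} {e : α → ℕ} (hφ : Poly φ) (he : Poly e) :
    Poly (fun a => prt (φ a) (e a)) := by
  unfold prt
  exact padd (pmul (pc 6) he) (Poly.ite (Poly.decide_eq (Poly.fst (TG.poly_ocf hφ he)) (pc true))
    (pc 3) (pc 0))

theorem adjC_poly : Poly (fun q : (List TG.Cl × Lab) × Lab => adjC q.1.1 q.1.2 q.2) := by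
  have hφ : Poly (fun q : (List TG.Cl × Lab) × Lab => q.1.1) := Poly.fst (Poly.fst Poly.id)
  have hx : Poly (fun q : (List TG.Cl × Lab) × Lab => q.1.2) := Poly.snd (Poly.fst Poly.id)
  have hy : Poly (fun q : (List TG.Cl × Lab) × Lab => q.2) := Poly.snd Poly.id
  have x1 := Poly.fst hx
  have x2 := Poly.fst (Poly.snd hx)
  have x3 := Poly.snd (Poly.snd hx)
  have y1 := Poly.fst hy
  have y2 := Poly.fst (Poly.snd hy)
  have y3 := Poly.snd (Poly.snd hy)
  have hL : Poly (fun q : (List TG.Cl × Lab) × Lab => 6 * (3 * q.1.1.length)) :=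
    pmul (pc 6) (pmul (pc 3) (Poly.length hφ))
  unfold adjC
  refine Poly.or ?_ (Poly.or ?_ (Poly.or ?_ ?_))
  · exact Poly.and (Poly.decide_eq x1 (pc 0)) (Poly.and (Poly.decide_eq y1 (pc 0))
      (Poly.and (Poly.decide_eq x2 y2) (Poly.or (Poly.decide_eq y3 (padd x3 (pc 1)))
        (Poly.and (Poly.decide_eq y3 (pc 0)) (Poly.decide_eq (padd x3 (pc 1)) hL)))))
  · exact Poly.and (Poly.decide_eq x1 (pc 1)) (Poly.and (Poly.decide_eq y1 (pc 1))
      (Poly.and (Poly.decide_eq x2 y2) (Poly.and (Poly.decide_eq x3 (pc 0))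
        (Poly.decide_eq y3 (pc 1)))))
  · exact Poly.and (Poly.decide_eq x1 (pc 1)) (Poly.and (Poly.decide_eq y1 (pc 1))
      (Poly.and (Poly.decide_eq x3 (pc 1)) (Poly.and (Poly.decide_eq y3 (pc 1))
        (Poly.decide_eq (TG.poly_divc x2 3) (TG.poly_divc y2 3)))))
  · exact Poly.and (Poly.decide_eq x1 (pc 1)) (Poly.and (Poly.decide_eq x3 (pc 0))
      (Poly.and (Poly.decide_eq y1 (pc 0)) (Poly.and (Poly.decide_eq y2
        (Poly.snd (TG.poly_ocf hφ x2))) (Poly.decide_eq y3 (prt_poly hφ x2)))))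

theorem elC_poly (k : ℕ) : Poly (elC k) := by
  have h3 : Poly (fun z : Lab => z.2.2) := Poly.snd (Poly.snd Poly.id)
  unfold elC
  exact Poly.ite (Poly.decide_eq (Poly.fst Poly.id) (pc 0))
    (Poly.ite (Poly.decide_eq (TG.poly_modc h3 3) (pc 0)) (pc (k - 1)) (pc k))
    (Poly.ite (Poly.decide_eq h3 (pc 0)) (pc k) (pc (k - 1)))

theorem mA_poly (k : ℕ) : Poly (mA k) := by
  unfold mA vsA
  exact mat_poly (adj := fun (φ : List TG.Cl) => adjLf (adjC φ))
    (Poly.append vsC_poly (lvs_poly k (elC_poly k) vsC_poly)) (adjLf_poly adjC_poly)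

theorem pA_poly (k : ℕ) : Poly (pA k) := by
  have hn : Poly (fun φ : List TG.Cl => 3 * φ.length) := pmul (pc 3) (Poly.length Poly.id)
  unfold pA
  exact padd (Poly.sum (pmap (F := fun (_ : List TG.Cl) z => elC k z) vsC_poly
    ((elC_poly k).comp (Poly.snd Poly.id)))) (padd (pmul hn (pmul (pc 3) hn)) hn)

/-- the reduction for `r ≥ k + 2` -/
def redA (k r : ℕ) (φ : List TG.Cl) : List (List Bool) × ℕ :=
  (regM r (r + 1) gb (mA k φ), 2 * pA k φ + (k + 1) * numF r (mA k φ))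

theorem redA_poly (k r : ℕ) : Poly (redA k r) := by
  unfold redA
  exact Poly.pair ((regM_poly r (r + 1) gb gb_poly).comp (mA_poly k))
    (padd (pmul (pc 2) (pA_poly k)) (pmul (pc (k + 1)) ((numF_poly r).comp (mA_poly k))))

theorem redA_reg {k r : ℕ} (hk : 1 ≤ k) (hr : k + 2 ≤ r) (φ : List TG.Cl) :
    ∀ v, nd (matGraph (redA k r φ).1) v = r := by
  unfold redA
  refine regM_reg (by omega) (fun v => (mA_deg φ hk v).trans hr) (gb_reg (by omega))

theorem redA_iff {k r : ℕ} (hk : 1 ≤ k) (hr : k + 2 ≤ r) {φ : List TG.Cl} (hb : Bounded3 φ)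
    (hne : φ ≠ []) : HasKI (matGraph (redA k r φ).1) k (redA k r φ).2 ↔ SAT3 φ := by
  unfold redA
  simp only
  rw [regM_KI hk hr, mA_iff hb hne hk]

theorem redA_pos {φ : List TG.Cl} (hne : φ ≠ []) (k r : ℕ) : 1 ≤ (redA k r φ).2 := by
  have := pA_pos hne k
  unfold redA
  simp only
  omega

end Pool.Agent.Q224.KI
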