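import Pool.Agent.Q224.KI.R1

/-!
From 3SAT to dominating sets in subcubic graphs
-/

set_option autoImplicit false
set_option linter.unusedSectionVars false

namespace Pool.Agent.Q224.KI

open Pool.Agent.NPC Pool.Agent.H622R2 Q229

/-- the position of the port of the literal number `e` -/
def prd (φ : List TG.Cl) (e : ℕ) : ℕ := 3 * e + if (TG.ocf φ e).1 then 2 else 0

theorem prd_cases (φ : List TG.Cl) (e : ℕ) :
    ((TG.ocf φ e).1 = true ∧ prd φ e = 3 * e + 2) ∨ ((TG.ocf φ e).1 = false ∧ prd φ e = 3 * e) := by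
  unfold prd
  by_cases h : (TG.ocf φ e).1 = true
  · left; rw [if_pos h]; exact ⟨h, rfl⟩
  · right; rw [if_neg h]; exact ⟨by simpa using h, rfl⟩

/-- the vertices -/
def vsD (φ : List TG.Cl) : List Lab :=
  block 0 (3 * φ.length) (3 * (3 * φ.length)) ++ (block 1 (3 * φ.length) 3 ++
    (block 2 φ.length 1 ++ []))

/-- adjacency -/
def adjD (φ : List TG.Cl) (x y : Lab) : Bool :=
  (decide (x.1 = 0) && (decide (y.1 = 0) && (decide (x.2.1 = y.2.1) &&
    (decide (y.2.2 = x.2.2 + 1) ||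
      (decide (y.2.2 = 0) && decide (x.2.2 + 1 = 3 * (3 * φ.length))))))) ||
  ((decide (x.1 = 1) && (decide (y.1 = 1) && (decide (x.2.1 = y.2.1) &&
    decide (y.2.2 = x.2.2 + 1)))) ||
  ((decide (x.1 = 2) && (decide (y.1 = 1) && (decide (y.2.2 = 0) &&
    decide (y.2.1 / 3 = x.2.1)))) ||
  (decide (x.1 = 1) && (decide (x.2.2 = 2) && (decide (y.1 = 0) &&
    (decide (y.2.1 = (TG.ocf φ x.2.1).2) && decide (y.2.2 = prd φ x.2.1)))))))

theorem adjD_iff (φ : List TG.Cl) (x1 x2 x3 y1 y2 y3 : ℕ) :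
    adjD φ (x1, x2, x3) (y1, y2, y3) = true ↔
    (x1 = 0 ∧ y1 = 0 ∧ x2 = y2 ∧ (y3 = x3 + 1 ∨ (y3 = 0 ∧ x3 + 1 = 3 * (3 * φ.length)))) ∨
    (x1 = 1 ∧ y1 = 1 ∧ x2 = y2 ∧ y3 = x3 + 1) ∨
    (x1 = 2 ∧ y1 = 1 ∧ y3 = 0 ∧ y2 / 3 = x2) ∨
    (x1 = 1 ∧ x3 = 2 ∧ y1 = 0 ∧ y2 = (TG.ocf φ x2).2 ∧ y3 = prd φ x2) := by
  unfold adjD
  simp only [Bool.or_eq_true, Bool.and_eq_true, decide_eq_true_eq]

theorem mem_vsD {φ : List TG.Cl} {z : Lab} : z ∈ vsD φ ↔
    (z.1 = 0 ∧ z.2.1 < 3 * φ.length ∧ z.2.2 < 3 * (3 * φ.length)) ∨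
    (z.1 = 1 ∧ z.2.1 < 3 * φ.length ∧ z.2.2 < 3) ∨ (z.1 = 2 ∧ z.2.1 < φ.length ∧ z.2.2 < 1) := by
  unfold vsD
  simp only [List.mem_append, mem_block, List.not_mem_nil, or_false]

theorem vsD_nodup (φ : List TG.Cl) : (vsD φ).Nodup := by
  unfold vsD
  refine block_append_nodup (block_append_nodup (block_append_nodup List.nodup_nil ?_) ?_) ?_
  · intro z hz
    exact absurd hz (List.not_mem_nil)
  all_goals
    intro z hz
    simp only [List.append_nil, List.mem_append, mem_block] at hz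
    omega

theorem sum_triples (b : ℕ → ℕ) (n : ℕ) : ∑ t ∈ Finset.range (3 * n), b t =
      ∑ s ∈ Finset.range n, (b (3 * s) + b (3 * s + 1) + b (3 * s + 2)) := by
  induction n with
  | zero => simp
  | succ n ih =>
    rw [show 3 * (n + 1) = 3 * n + 1 + 1 + 1 by ring, Finset.sum_range_succ, Finset.sum_range_succ,
      Finset.sum_range_succ, ih, Finset.sum_range_succ]
    ring

theorem sum_vsD (φ : List TG.Cl) (f : Lab → ℕ) : ((vsD φ).map f).sum =
    (∑ x ∈ Finset.range (3 * φ.length), ∑ e ∈ Finset.range (3 * φ.length),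
      (f (0, x, 3 * e) + f (0, x, 3 * e + 1) + f (0, x, 3 * e + 2))) +
    (∑ e ∈ Finset.range (3 * φ.length), (f (1, e, 0) + f (1, e, 1) + f (1, e, 2)) +
    ∑ i ∈ Finset.range φ.length, f (2, i, 0)) := by
  unfold vsD
  rw [List.append_nil, List.map_append, List.sum_append, List.map_append, List.sum_append,
    sum_block, sum_block, sum_block]
  refine congrArg₂ _ (Finset.sum_congr rfl fun x _ => sum_triples _ _) (congrArg₂ _
    (Finset.sum_congr rfl fun e _ => ?_) (Finset.sum_congr rfl fun i _ => ?_))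
  · rw [Finset.sum_range_succ, Finset.sum_range_succ, Finset.sum_range_one]
  · rw [Finset.sum_range_one]

theorem cyc_mono (n : ℕ) (f : ℕ → ℕ) (h : ∀ e, e + 1 < n → f e ≤ f (e + 1))
    (h' : f (n - 1) ≤ f 0) : ∀ e < n, f e = f 0 := by
  have h1 : ∀ e, e < n → ∀ e' ≤ e, f e' ≤ f e := by
    intro e
    induction e with
    | zero =>
      intro _ e' he'
      rw [show e' = 0 by omega]
    | succ e ih =>
      intro he e' he'
      by_cases h4 : e' = e + 1
      · rw [h4]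
      · exact (ih (by omega) e' (by omega)).trans (h e he)
  intro e he
  have h2 := h1 e he 0 (Nat.zero_le _)
  have h3 := h1 (n - 1) (by omega) e (by omega)
  omega

/-- soundness -/
theorem dom_sound {φ : List TG.Cl} (hb : Bounded3 φ) (hne : φ ≠ [])
    (h : HasDom (labG (vsD φ) (adjD φ)) (3 * φ.length * (3 * φ.length) + 3 * φ.length)) :
    SAT3 φ := by
  classical
  have hm : 0 < φ.length := List.length_pos_iff.2 hne
  obtain ⟨D, hD, hc⟩ := h
  rw [card_bS (vsD_nodup φ), sum_vsD] at hc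
  have hocf : ∀ e < 3 * φ.length, (TG.ocf φ e).2 < 3 * φ.length := (TG.ctx hb hne).bd
  have hb1 : ∀ z, bS D z ≤ 1 := bS_le D
  have hdom : ∀ z ∈ vsD φ, bS D z = 1 ∨ ∃ w ∈ vsD φ, bS D w = 1 ∧
      (adjD φ z w = true ∨ adjD φ w z = true) := by
    intro z hz
    rcases hD ⟨z, hz⟩ with h1 | ⟨w, hw, h1⟩
    · exact Or.inl (bS_mem hz h1)
    · exact Or.inr ⟨w.1, w.2, bS_mem w.2 hw, h1.2⟩
  generalize bS D = b at *
  set n := 3 * φ.length with hn
  have hmem : ∀ z, z ∈ vsD φ ↔ (z.1 = 0 ∧ z.2.1 < n ∧ z.2.2 < 3 * n) ∨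
    (z.1 = 1 ∧ z.2.1 < n ∧ z.2.2 < 3) ∨ (z.1 = 2 ∧ z.2.1 < φ.length ∧ z.2.2 < 1) := fun z => mem_vsD
  -- windows
  have hw1 : ∀ x < n, ∀ e ∈ Finset.range n,
      1 ≤ b (0, x, 3 * e) + b (0, x, 3 * e + 1) + b (0, x, 3 * e + 2) := by
    intro x hx e he
    rw [Finset.mem_range] at he
    rcases hdom (0, x, 3 * e + 1) ((hmem _).2 (Or.inl ⟨rfl, hx, by simp only; omega⟩)) with
      h1 | ⟨⟨w1, w2, w3⟩, hw, h1, h2⟩
    · omega
    · rw [adjD_iff, adjD_iff] at h2
      have hp := prd_cases φ w2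
      have h3 : (w1 = 0 ∧ w2 = x ∧ w3 = 3 * e) ∨ (w1 = 0 ∧ w2 = x ∧ w3 = 3 * e + 2) := by omega
      rcases h3 with ⟨rfl, rfl, rfl⟩ | ⟨rfl, rfl, rfl⟩ <;> omega
  have hw2 : ∀ e ∈ Finset.range n, 1 ≤ b (1, e, 0) + b (1, e, 1) + b (1, e, 2) := by
    intro e he
    rw [Finset.mem_range] at he
    rcases hdom (1, e, 1) ((hmem _).2 (Or.inr (Or.inl ⟨rfl, he, by simp⟩))) with
      h1 | ⟨⟨w1, w2, w3⟩, hw, h1, h2⟩
    · omega
    · rw [adjD_iff, adjD_iff] at h2
      have h3 : (w1 = 1 ∧ w2 = e ∧ w3 = 0) ∨ (w1 = 1 ∧ w2 = e ∧ w3 = 2) := by omega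
      rcases h3 with ⟨rfl, rfl, rfl⟩ | ⟨rfl, rfl, rfl⟩ <;> omega
  have hs1 : ∀ x ∈ Finset.range n, n ≤ ∑ e ∈ Finset.range n,
      (b (0, x, 3 * e) + b (0, x, 3 * e + 1) + b (0, x, 3 * e + 2)) := by
    intro x hx
    have := Finset.sum_le_sum (hw1 x (Finset.mem_range.1 hx))
    simpa using this
  have hs2 := Finset.sum_le_sum hs1
  have hs3 := Finset.sum_le_sum hw2
  have hc1 : ∑ x ∈ Finset.range n, n = n * n := by simp
  have hc2 : ∑ x ∈ Finset.range n, 1 = n := by simp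
  have heq1 := (Finset.sum_eq_sum_iff_of_le hs1).1 (by omega)
  have heq2 := (Finset.sum_eq_sum_iff_of_le hw2).1 (by omega)
  have heq3 : ∀ x < n, ∀ e < n,
      b (0, x, 3 * e) + b (0, x, 3 * e + 1) + b (0, x, 3 * e + 2) = 1 := by
    intro x hx e he
    have h1 := heq1 x (Finset.mem_range.2 hx)
    exact ((Finset.sum_eq_sum_iff_of_le (hw1 x hx)).1 (by rw [hc2]; exact h1) e
      (Finset.mem_range.2 he)).symm
  have hcl : ∀ i < φ.length, b (2, i, 0) = 0 := by
    have h0 : ∑ i ∈ Finset.range φ.length, b (2, i, 0) = 0 := by omega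
    intro i hi
    exact (Finset.sum_eq_zero_iff.1 h0) i (Finset.mem_range.2 hi)
  have hp2 : ∀ e < n, b (1, e, 2) = 0 := by
    intro e he
    have h0 := heq2 e (Finset.mem_range.2 he)
    rcases hdom (1, e, 0) ((hmem _).2 (Or.inr (Or.inl ⟨rfl, he, by simp⟩))) with
      h1 | ⟨⟨w1, w2, w3⟩, hw, h1, h2⟩
    · omega
    · rw [adjD_iff, adjD_iff] at h2
      have h3 : (w1 = 1 ∧ w2 = e ∧ w3 = 1) ∨ (w1 = 2 ∧ w2 = e / 3) := by omega
      rcases h3 with ⟨rfl, rfl, rfl⟩ | ⟨rfl, rfl⟩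
      · omega
      · rw [hmem] at hw
        simp only at hw
        have h4 : w3 = 0 := by omega
        subst h4
        have := hcl (e / 3) (by omega)
        omega
  -- the states
  have hst : ∀ x < n, ∀ e < n, b (0, x, 3 * e + 2) = b (0, x, 2) ∧ b (0, x, 3 * e) = b (0, x, 0) := by
    intro x hx
    have hd : ∀ t < 3 * n, b (0, x, t) = 1 ∨ ∃ t' < 3 * n, b (0, x, t') = 1 ∧
        (t' = t + 1 ∨ (t' = 0 ∧ t + 1 = 3 * n) ∨ t = t' + 1 ∨ (t = 0 ∧ t' + 1 = 3 * n)) := by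
      intro t ht
      rcases hdom (0, x, t) ((hmem _).2 (Or.inl ⟨rfl, hx, ht⟩)) with h1 | ⟨⟨w1, w2, w3⟩, hw, h1, h2⟩
      · exact Or.inl h1
      · rw [adjD_iff, adjD_iff] at h2
        rw [hmem] at hw
        simp only at hw
        rcases (by omega : w1 = 0 ∨ w1 = 1) with rfl | rfl
        · have h3 : x = w2 := by omega
          subst h3
          exact Or.inr ⟨w3, by omega, h1, by omega⟩
        · have h3 : w3 = 2 := by omega
          subst h3
          have := hp2 w2 (by omega)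
          omega
    have hC : ∀ e < n, b (0, x, 3 * e + 2) = b (0, x, 2) := by
      have h1 := cyc_mono n (fun e => b (0, x, 3 * (n - 1 - e) + 2)) (by
        intro e he
        have h2 := heq3 x hx (n - 1 - e) (by omega)
        have h2' := heq3 x hx (n - 1 - (e + 1)) (by omega)
        have e1 : 3 * (n - 1 - e) = 3 * (n - 1 - (e + 1)) + 2 + 1 := by omega
        rcases hd (3 * (n - 1 - e)) (by omega) with h3 | ⟨t', ht', h3, h4⟩
        · omega
        · rcases (by omega : t' = 3 * (n - 1 - e) + 1 ∨ t' = 3 * (n - 1 - (e + 1)) + 2) with rfl | rfl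
          · omega
          · have := hb1 (0, x, 3 * (n - 1 - e) + 2)
            omega) (by
        have h2 := heq3 x hx 0 (by omega)
        rw [show n - 1 - (n - 1) = 0 by omega]
        rcases hd (3 * 0) (by omega) with h3 | ⟨t', ht', h3, h4⟩
        · omega
        · rcases (by omega : t' = 3 * 0 + 1 ∨ t' = 3 * (n - 1 - 0) + 2) with rfl | rfl
          · omega
          · have := hb1 (0, x, 3 * 0 + 2)
            omega)
      intro e he
      have h2 := h1 (n - 1 - e) (by omega)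
      have h3 := h1 (n - 1) (by omega)
      rw [show n - 1 - (n - 1 - e) = e by omega] at h2
      rw [show n - 1 - (n - 1) = 0 by omega] at h3
      rw [h2, ← h3]
    have hA : ∀ e < n, b (0, x, 3 * e) = b (0, x, 0) := by
      have h1 := cyc_mono n (fun e => b (0, x, 3 * e)) (by
        intro e he
        have h2 := heq3 x hx e (by omega)
        rcases hd (3 * e + 2) (by omega) with h3 | ⟨t', ht', h3, h4⟩
        · omega
        · rcases (by omega : t' = 3 * e + 1 ∨ t' = 3 * (e + 1)) with rfl | rfl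
          · omega
          · have := hb1 (0, x, 3 * e)
            omega) (by
        have h2 := heq3 x hx (n - 1) (by omega)
        rcases hd (3 * (n - 1) + 2) (by omega) with h3 | ⟨t', ht', h3, h4⟩
        · omega
        · rcases (by omega : t' = 3 * (n - 1) + 1 ∨ t' = 3 * 0) with rfl | rfl
          · omega
          · have := hb1 (0, x, 3 * (n - 1))
            omega)
      intro e he
      exact h1 e he
    exact fun e he => ⟨hC e he, hA e he⟩
  rw [TG.sat_iff]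
  refine ⟨fun x => decide (b (0, x, 2) = 1), fun i hi => ?_⟩
  -- the clause is dominated
  obtain ⟨e, he, hei, hbe⟩ : ∃ e < n, e / 3 = i ∧ b (1, e, 0) = 1 := by
    rcases hdom (2, i, 0) ((hmem _).2 (Or.inr (Or.inr ⟨rfl, hi, by simp⟩))) with
      h1 | ⟨⟨w1, w2, w3⟩, hw, h1, h2⟩
    · have := hcl i hi
      omega
    · rw [adjD_iff, adjD_iff] at h2
      rw [hmem] at hw
      simp only at hw
      have h3 : w1 = 1 ∧ w3 = 0 := by omega
      obtain ⟨rfl, rfl⟩ := h3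
      exact ⟨w2, by omega, by omega, h1⟩
  refine ⟨e % 3, Nat.mod_lt _ (by omega), ?_⟩
  rw [show 3 * i + e % 3 = e by omega]
  have h1 := heq2 e (Finset.mem_range.2 he)
  have hx := hocf e he
  -- the port is in the set
  have hport : b (0, (TG.ocf φ e).2, prd φ e) = 1 := by
    rcases hdom (1, e, 2) ((hmem _).2 (Or.inr (Or.inl ⟨rfl, he, by simp⟩))) with
      h2 | ⟨⟨w1, w2, w3⟩, hw, h3, h2⟩
    · have := hp2 e he
      omega
    · rw [adjD_iff, adjD_iff] at h2
      rw [hmem] at hw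
      simp only at hw
      have h4 : (w1 = 1 ∧ w2 = e ∧ w3 = 1) ∨ (w1 = 0 ∧ w2 = (TG.ocf φ e).2 ∧ w3 = prd φ e) := by
        omega
      rcases h4 with ⟨rfl, rfl, rfl⟩ | ⟨rfl, rfl, rfl⟩
      · omega
      · exact h3
  obtain ⟨h2, h3⟩ := hst _ hx e he
  rcases prd_cases φ e with ⟨h4, h5⟩ | ⟨h4, h5⟩
  · rw [h4]
    simp only [decide_eq_true_eq]
    rw [h5] at hport
    omega
  · rw [h4]
    simp only [decide_eq_false_iff_not]
    rw [h5] at hport
    have h6 := heq3 _ hx 0 (by omega)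
    simp only [Nat.mul_zero, Nat.zero_add] at h6
    omega

/-- the set of a satisfying assignment -/
def FD (φ : List TG.Cl) (τ : ℕ → Bool) (z : Lab) : Prop :=
  (z.1 = 0 ∧ ((τ z.2.1 = true ∧ z.2.2 % 3 = 2) ∨ (τ z.2.1 = false ∧ z.2.2 % 3 = 0))) ∨
  (z.1 = 1 ∧ ((z.2.2 = 0 ∧ τ (TG.ocf φ z.2.1).2 = (TG.ocf φ z.2.1).1) ∨
    (z.2.2 = 1 ∧ ¬ τ (TG.ocf φ z.2.1).2 = (TG.ocf φ z.2.1).1)))

/-- completeness -/
theorem dom_complete {φ : List TG.Cl} (hb : Bounded3 φ) (hne : φ ≠ []) (h : SAT3 φ) :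
    HasDom (labG (vsD φ) (adjD φ)) (3 * φ.length * (3 * φ.length) + 3 * φ.length) := by
  classical
  have hm : 0 < φ.length := List.length_pos_iff.2 hne
  have hocf : ∀ e < 3 * φ.length, (TG.ocf φ e).2 < 3 * φ.length := (TG.ctx hb hne).bd
  rw [TG.sat_iff] at h
  obtain ⟨τ, hτ⟩ := h
  let D : Finset {z // z ∈ vsD φ} := Finset.univ.filter fun c => FD φ τ c.1
  have hD : ∀ c, c ∈ D ↔ FD φ τ c.1 := fun c => by simp [D]
  set n := 3 * φ.length with hn
  have hmem : ∀ z, z ∈ vsD φ ↔ (z.1 = 0 ∧ z.2.1 < n ∧ z.2.2 < 3 * n) ∨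
    (z.1 = 1 ∧ z.2.1 < n ∧ z.2.2 < 3) ∨ (z.1 = 2 ∧ z.2.1 < φ.length ∧ z.2.2 < 1) := fun z => mem_vsD
  refine ⟨D, ?_, ?_⟩
  · suffices H : ∀ z ∈ vsD φ, FD φ τ z ∨ ∃ w ∈ vsD φ, FD φ τ w ∧
        (z ≠ w ∧ (adjD φ z w = true ∨ adjD φ w z = true)) by
      intro v
      rcases H v.1 v.2 with h1 | ⟨w, hw, h1, h2⟩
      · exact Or.inl ((hD v).2 h1)
      · exact Or.inr ⟨⟨w, hw⟩, (hD _).2 h1, h2⟩
    rintro ⟨z1, z2, z3⟩ hz
    rw [hmem] at hz
    simp only at hz
    rcases hz with ⟨rfl, h2, h3⟩ | ⟨rfl, h2, h3⟩ | ⟨rfl, h2, h3⟩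
    · cases hτx : τ z2
      · -- false
        rcases (by omega : z3 % 3 = 0 ∨ z3 % 3 = 1 ∨ (z3 % 3 = 2 ∧ z3 + 1 < 3 * n) ∨
          (z3 % 3 = 2 ∧ z3 + 1 = 3 * n)) with h4 | h4 | h4 | h4
        · exact Or.inl (Or.inl ⟨rfl, Or.inr ⟨hτx, h4⟩⟩)
        · refine Or.inr ⟨(0, z2, z3 - 1), (hmem _).2 (Or.inl ⟨rfl, h2, by simp only; omega⟩),
            Or.inl ⟨rfl, Or.inr ⟨hτx, by simp only; omega⟩⟩, ?_, Or.inr ?_⟩
          · simp only [ne_eq, Prod.mk.injEq, true_and]; omega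
          · rw [adjD_iff]; omega
        · refine Or.inr ⟨(0, z2, z3 + 1), (hmem _).2 (Or.inl ⟨rfl, h2, by simp only; omega⟩),
            Or.inl ⟨rfl, Or.inr ⟨hτx, by simp only; omega⟩⟩, ?_, Or.inl ?_⟩
          · simp only [ne_eq, Prod.mk.injEq, true_and]; omega
          · rw [adjD_iff]; omega
        · refine Or.inr ⟨(0, z2, 0), (hmem _).2 (Or.inl ⟨rfl, h2, by simp only; omega⟩),
            Or.inl ⟨rfl, Or.inr ⟨hτx, by simp only⟩⟩, ?_, Or.inl ?_⟩
          · simp only [ne_eq, Prod.mk.injEq, true_and]; omega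
          · rw [adjD_iff]; omega
      · -- true
        rcases (by omega : z3 % 3 = 2 ∨ z3 % 3 = 1 ∨ (z3 % 3 = 0 ∧ 0 < z3) ∨ z3 = 0) with
          h4 | h4 | h4 | h4
        · exact Or.inl (Or.inl ⟨rfl, Or.inl ⟨hτx, h4⟩⟩)
        · refine Or.inr ⟨(0, z2, z3 + 1), (hmem _).2 (Or.inl ⟨rfl, h2, by simp only; omega⟩),
            Or.inl ⟨rfl, Or.inl ⟨hτx, by simp only; omega⟩⟩, ?_, Or.inl ?_⟩
          · simp only [ne_eq, Prod.mk.injEq, true_and]; omega
          · rw [adjD_iff]; omega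
        · refine Or.inr ⟨(0, z2, z3 - 1), (hmem _).2 (Or.inl ⟨rfl, h2, by simp only; omega⟩),
            Or.inl ⟨rfl, Or.inl ⟨hτx, by simp only; omega⟩⟩, ?_, Or.inr ?_⟩
          · simp only [ne_eq, Prod.mk.injEq, true_and]; omega
          · rw [adjD_iff]; omega
        · refine Or.inr ⟨(0, z2, 3 * n - 1), (hmem _).2 (Or.inl ⟨rfl, h2, by simp only; omega⟩),
            Or.inl ⟨rfl, Or.inl ⟨hτx, by simp only; omega⟩⟩, ?_, Or.inr ?_⟩
          · simp only [ne_eq, Prod.mk.injEq, true_and]; omega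
          · rw [adjD_iff]; omega
    · by_cases hl : τ (TG.ocf φ z2).2 = (TG.ocf φ z2).1
      · rcases (by omega : z3 = 0 ∨ z3 = 1 ∨ z3 = 2) with rfl | rfl | rfl
        · exact Or.inl (Or.inr ⟨rfl, Or.inl ⟨rfl, hl⟩⟩)
        · refine Or.inr ⟨(1, z2, 0), (hmem _).2 (Or.inr (Or.inl ⟨rfl, h2, by simp⟩)),
            Or.inr ⟨rfl, Or.inl ⟨rfl, hl⟩⟩, by simp, Or.inr ?_⟩
          rw [adjD_iff]; omega
        · have h4 := hocf z2 h2
          refine Or.inr ⟨(0, (TG.ocf φ z2).2, prd φ z2), (hmem _).2 (Or.inl ⟨rfl, h4, ?_⟩),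
            Or.inl ⟨rfl, ?_⟩, by simp, Or.inl ?_⟩
          · simp only
            rcases prd_cases φ z2 with ⟨h5, h6⟩ | ⟨h5, h6⟩ <;> omega
          · simp only
            rcases prd_cases φ z2 with ⟨h5, h6⟩ | ⟨h5, h6⟩
            · left; rw [hl, h5, h6]; exact ⟨rfl, by omega⟩
            · right; rw [hl, h5, h6]; exact ⟨rfl, by omega⟩
          · rw [adjD_iff]
            exact Or.inr (Or.inr (Or.inr ⟨rfl, rfl, rfl, rfl, rfl⟩))
      · rcases (by omega : z3 = 0 ∨ z3 = 1 ∨ z3 = 2) with rfl | rfl | rfl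
        · refine Or.inr ⟨(1, z2, 1), (hmem _).2 (Or.inr (Or.inl ⟨rfl, h2, by simp⟩)),
            Or.inr ⟨rfl, Or.inr ⟨rfl, hl⟩⟩, by simp, Or.inl ?_⟩
          rw [adjD_iff]; omega
        · exact Or.inl (Or.inr ⟨rfl, Or.inr ⟨rfl, hl⟩⟩)
        · refine Or.inr ⟨(1, z2, 1), (hmem _).2 (Or.inr (Or.inl ⟨rfl, h2, by simp⟩)),
            Or.inr ⟨rfl, Or.inr ⟨rfl, hl⟩⟩, by simp, Or.inr ?_⟩
          rw [adjD_iff]; omega
    · obtain ⟨j, hj, hl⟩ := hτ z2 h2
      refine Or.inr ⟨(1, 3 * z2 + j, 0), (hmem _).2 (Or.inr (Or.inl ⟨rfl, by simp only; omega,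
        by simp⟩)), Or.inr ⟨rfl, Or.inl ⟨rfl, hl⟩⟩, by simp, Or.inl ?_⟩
      rw [adjD_iff]; omega
  · have h1 : D.card = ((vsD φ).map fun z => if FD φ τ z then 1 else 0).sum := by
      rw [← sum_lab (vsD_nodup φ), ← Finset.card_filter]
    rw [h1, sum_vsD]
    have e0 : ∀ x e, ((if FD φ τ (0, x, 3 * e) then 1 else 0) +
        (if FD φ τ (0, x, 3 * e + 1) then 1 else 0) +
        if FD φ τ (0, x, 3 * e + 2) then 1 else 0) ≤ 1 := by
      intro x e
      have a1 : ¬ FD φ τ (0, x, 3 * e + 1) := by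
        unfold FD; simp only; omega
      rw [if_neg a1]
      cases hx : τ x
      · have a2 : ¬ FD φ τ (0, x, 3 * e + 2) := by
          unfold FD; simp only [hx]; simp
        rw [if_neg a2]
        split_ifs <;> omega
      · have a2 : ¬ FD φ τ (0, x, 3 * e) := by
          unfold FD; simp only [hx]; simp
        rw [if_neg a2]
        split_ifs <;> omega
    have e1 : ∀ e, ((if FD φ τ (1, e, 0) then 1 else 0) + (if FD φ τ (1, e, 1) then 1 else 0) +
        if FD φ τ (1, e, 2) then 1 else 0) ≤ 1 := by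
      intro e
      have a1 : ¬ FD φ τ (1, e, 2) := by
        unfold FD; simp
      rw [if_neg a1]
      by_cases hl : τ (TG.ocf φ e).2 = (TG.ocf φ e).1
      · have a2 : ¬ FD φ τ (1, e, 1) := by
          unfold FD; simp [hl]
        rw [if_neg a2]
        split_ifs <;> omega
      · have a2 : ¬ FD φ τ (1, e, 0) := by
          unfold FD; simp [hl]
        rw [if_neg a2]
        split_ifs <;> omega
    have e2 : ∀ i, (if FD φ τ (2, i, 0) then 1 else 0) = 0 := by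
      intro i
      rw [if_neg]
      unfold FD; simp
    simp only [e2, Finset.sum_const_zero, add_zero]
    refine Nat.add_le_add ?_ ?_
    · have : ∀ x ∈ Finset.range (3 * φ.length), (∑ e ∈ Finset.range (3 * φ.length),
          ((if FD φ τ (0, x, 3 * e) then 1 else 0) + (if FD φ τ (0, x, 3 * e + 1) then 1 else 0) +
          if FD φ τ (0, x, 3 * e + 2) then 1 else 0)) ≤ n := by
        intro x _
        refine (Finset.sum_le_sum (g := fun _ => 1) fun e _ => e0 x e).trans (le_of_eq ?_)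
        simp [hn]
      refine (Finset.sum_le_sum this).trans (le_of_eq ?_)
      simp [hn]
    · refine (Finset.sum_le_sum (g := fun _ => 1) fun e _ => e1 e).trans (le_of_eq ?_)
      simp [hn]

/-- degrees -/
theorem dom_deg (φ : List TG.Cl) : ∀ x, nd (labG (vsD φ) (adjD φ)) x ≤ 3 := by
  rintro ⟨⟨c1, c2, c3⟩, hc⟩
  have hc' := mem_vsD.1 hc
  simp only at hc'
  set n := 3 * φ.length
  rcases (by omega : c1 = 0 ∨ (c1 = 1 ∧ c3 = 0) ∨ (c1 = 1 ∧ c3 = 1) ∨ (c1 = 1 ∧ c3 = 2) ∨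
    (c1 = 2 ∧ c3 = 0)) with rfl | ⟨rfl, rfl⟩ | ⟨rfl, rfl⟩ | ⟨rfl, rfl⟩ | ⟨rfl, rfl⟩
  · refine (nd_lab_le (vs := vsD φ) (adj := adjD φ) ⟨(0, c2, c3), hc⟩
      {(0, c2, if c3 + 1 = 3 * n then 0 else c3 + 1), (0, c2, if c3 = 0 then 3 * n - 1 else c3 - 1),
        (1, c3 / 3, 2)} ?_).trans Finset.card_le_three
    rintro ⟨w1, w2, w3⟩ hw ⟨hne, ha⟩
    rw [mem_vsD] at hw
    simp only at hw
    simp only [Finset.mem_insert, Finset.mem_singleton, Prod.mk.injEq]
    rw [adjD_iff, adjD_iff] at ha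
    have hp := prd_cases φ w2
    split_ifs <;> omega
  · refine (nd_lab_le (vs := vsD φ) (adj := adjD φ) ⟨(1, c2, 0), hc⟩
      {(1, c2, 1), (2, c2 / 3, 0), (2, c2 / 3, 0)} ?_).trans Finset.card_le_three
    rintro ⟨w1, w2, w3⟩ hw ⟨hne, ha⟩
    rw [mem_vsD] at hw
    simp only at hw
    simp only [Finset.mem_insert, Finset.mem_singleton, Prod.mk.injEq]
    rw [adjD_iff, adjD_iff] at ha
    omega
  · refine (nd_lab_le (vs := vsD φ) (adj := adjD φ) ⟨(1, c2, 1), hc⟩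
      {(1, c2, 0), (1, c2, 2), (1, c2, 2)} ?_).trans Finset.card_le_three
    rintro ⟨w1, w2, w3⟩ hw ⟨hne, ha⟩
    rw [mem_vsD] at hw
    simp only at hw
    simp only [Finset.mem_insert, Finset.mem_singleton, Prod.mk.injEq]
    rw [adjD_iff, adjD_iff] at ha
    omega
  · refine (nd_lab_le (vs := vsD φ) (adj := adjD φ) ⟨(1, c2, 2), hc⟩
      {(1, c2, 1), (0, (TG.ocf φ c2).2, prd φ c2), (1, c2, 1)} ?_).trans Finset.card_le_three
    rintro ⟨w1, w2, w3⟩ hw ⟨hne, ha⟩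
    rw [mem_vsD] at hw
    simp only at hw
    simp only [Finset.mem_insert, Finset.mem_singleton, Prod.mk.injEq]
    rw [adjD_iff, adjD_iff] at ha
    omega
  · refine (nd_lab_le (vs := vsD φ) (adj := adjD φ) ⟨(2, c2, 0), hc⟩
      {(1, 3 * c2, 0), (1, 3 * c2 + 1, 0), (1, 3 * c2 + 2, 0)} ?_).trans Finset.card_le_three
    rintro ⟨w1, w2, w3⟩ hw ⟨hne, ha⟩
    rw [mem_vsD] at hw
    simp only at hw
    simp only [Finset.mem_insert, Finset.mem_singleton, Prod.mk.injEq]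
    rw [adjD_iff, adjD_iff] at ha
    omega

/-- the matrix -/
def mD (φ : List TG.Cl) : List (List Bool) := mat (vsD φ) (adjD φ)

/-- the threshold -/
def pD (φ : List TG.Cl) : ℕ := 3 * φ.length * (3 * φ.length) + 3 * φ.length

theorem mD_deg (φ : List TG.Cl) : ∀ v, nd (matGraph (mD φ)) v ≤ 3 := by
  obtain ⟨e⟩ := lab_iso (vsD_nodup φ) (adjD φ)
  intro v
  exact (nd_iso e v).symm.le.trans (dom_deg φ (e v))

theorem mD_iff {φ : List TG.Cl} (hb : Bounded3 φ) (hne : φ ≠ []) :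
    HasDom (matGraph (mD φ)) (pD φ) ↔ SAT3 φ := by
  obtain ⟨e⟩ := lab_iso (vsD_nodup φ) (adjD φ)
  unfold mD pD
  rw [hasDom_iso_iff e]
  exact ⟨dom_sound hb hne, dom_complete hb hne⟩

theorem mD_length (φ : List TG.Cl) : (mD φ).length =
    3 * φ.length * (3 * (3 * φ.length)) + (3 * φ.length * 3 + φ.length) := by
  unfold mD vsD block
  rw [mat_length]
  simp [List.length_flatMap]

/-- complement of a dominating set in a regular graph -/
theorem compl_iff {V : Type} [Fintype V] {G : SimpleGraph V} {k q : ℕ}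
    (hr : ∀ v, nd G v = k + 1) (hq : q ≤ Fintype.card V) :
    HasKI G k (Fintype.card V - q) ↔ HasDom G q := by
  classical
  have key : ∀ (S : Finset V) (v : V), ((S.filter (G.Adj v)).card ≤ k ↔ ∃ w ∈ Sᶜ, G.Adj v w) := by
    intro S v
    have h1 := hr v
    rw [nd_eq_sum, ← Finset.card_filter] at h1
    have h2 : (Finset.univ.filter (G.Adj v)) = S.filter (G.Adj v) ∪ Sᶜ.filter (G.Adj v) := by
      ext w
      simp only [Finset.mem_filter, Finset.mem_univ, true_and, Finset.mem_union, Finset.mem_compl]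
      tauto
    have h3 : Disjoint (S.filter (G.Adj v)) (Sᶜ.filter (G.Adj v)) :=
      Finset.disjoint_filter_filter disjoint_compl_right
    have h4 : (Finset.univ.filter (G.Adj v)).card = k + 1 := by
      rw [← h1]
    rw [h2, Finset.card_union_of_disjoint h3] at h4
    constructor
    · intro h
      have : 0 < (Sᶜ.filter (G.Adj v)).card := by omega
      obtain ⟨w, hw⟩ := Finset.card_pos.1 this
      exact ⟨w, (Finset.mem_filter.1 hw).1, (Finset.mem_filter.1 hw).2⟩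
    · rintro ⟨w, hw, ha⟩
      have : 0 < (Sᶜ.filter (G.Adj v)).card :=
        Finset.card_pos.2 ⟨w, Finset.mem_filter.2 ⟨hw, ha⟩⟩
      omega
  constructor
  · rintro ⟨S, hS, hp⟩
    refine ⟨Sᶜ, fun v => ?_, ?_⟩
    · by_cases hv : v ∈ S
      · right
        rw [← key S v]
        convert hS v hv
      · exact Or.inl (Finset.mem_compl.2 hv)
    · rw [Finset.card_compl]
      omega
  · rintro ⟨D, hD, hp⟩
    refine ⟨Dᶜ, fun v hv => ?_, ?_⟩
    · rcases hD v with h | h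
      · exact absurd h (Finset.mem_compl.1 hv)
      · have := (key Dᶜ v).2 (by rw [compl_compl]; exact h)
        convert this
    · rw [Finset.card_compl]
      omega

/-- the reduction for `r = k + 1 = s` -/
def redD (s : ℕ) (φ : List TG.Cl) : List (List Bool) × ℕ :=
  (regM s (2 * (s + 1)) (gf s) (mD φ),
    (regM s (2 * (s + 1)) (gf s) (mD φ)).length - (2 * pD φ + 2 * numF s (mD φ)))

theorem regM_length {r g : ℕ} {γ : ℕ → ℕ → Bool} {M : List (List Bool)} (hg : 2 ≤ g) :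
    (regM r g γ M).length = 2 * M.length + numF r M * g := by
  obtain ⟨e⟩ := regM_iso r g γ M hg
  have h1 := Fintype.card_congr e.toEquiv
  rw [Fintype.card_fin, Fintype.card_sum, Fintype.card_prod, Fintype.card_prod, card_Pl] at h1
  rw [h1]
  simp
  ring

theorem redD_lt {s : ℕ} {φ : List TG.Cl} (hne : φ ≠ []) :
    2 * pD φ + 2 * numF s (mD φ) < (regM s (2 * (s + 1)) (gf s) (mD φ)).length := by
  have hm : 0 < φ.length := List.length_pos_iff.2 hne
  rw [regM_length (by omega), mD_length]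
  unfold pD
  generalize numF s (mD φ) = F
  generalize φ.length = m at *
  nlinarith [Nat.zero_le (F * s)]

theorem redD_reg {s : ℕ} (hs : 3 ≤ s) (φ : List TG.Cl) :
    ∀ v, nd (matGraph (redD s φ).1) v = s := by
  unfold redD
  exact regM_reg (by omega) (fun v => (mD_deg φ v).trans hs) (gf_reg hs)

theorem redD_iff {k : ℕ} (hs : 3 ≤ k + 1) {φ : List TG.Cl} (hb : Bounded3 φ) (hne : φ ≠ []) :
    HasKI (matGraph (redD (k + 1) φ).1) k (redD (k + 1) φ).2 ↔ SAT3 φ := by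
  have h1 := redD_reg hs φ
  have h2 := (redD_lt (s := k + 1) hne).le
  unfold redD at *
  simp only at *
  have h3 := compl_iff (k := k) (q := 2 * pD φ + 2 * numF (k + 1) (mD φ)) h1
    (by rw [Fintype.card_fin]; exact h2)
  rw [Fintype.card_fin] at h3
  rw [h3, regM_Dom hs, mD_iff hb hne]

theorem redD_pos {s : ℕ} {φ : List TG.Cl} (hne : φ ≠ []) : 1 ≤ (redD s φ).2 := by
  have := redD_lt (s := s) hne
  unfold redD
  simp only
  omega

theorem vsD_poly : Poly vsD := by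
  have hn : UPoly (fun φ : List TG.Cl => 3 * φ.length) := (UPoly.const 3).mul (UPoly.length Poly.id)
  unfold vsD
  exact Poly.append (block_poly 0 hn ((UPoly.const 3).mul hn))
    (Poly.append (block_poly 1 hn (UPoly.const 3)) (Poly.append
      (block_poly 2 (UPoly.length Poly.id) (UPoly.const 1)) (pc [])))

theorem prd_poly {α : Type} [TEnc α] {φ : α → List TG.Cl} {e : α → ℕ} (hφ : Poly φ) (he : Poly e) :
    Poly (fun a => prd (φ a) (e a)) := by
  unfold prd
  exact padd (pmul (pc 3) he) (Poly.ite (Poly.decide_eq (Poly.fst (TG.poly_ocf hφ he)) (pc true))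
    (pc 2) (pc 0))

theorem adjD_poly : Poly (fun q : (List TG.Cl × Lab) × Lab => adjD q.1.1 q.1.2 q.2) := by
  have hφ : Poly (fun q : (List TG.Cl × Lab) × Lab => q.1.1) := Poly.fst (Poly.fst Poly.id)
  have hx : Poly (fun q : (List TG.Cl × Lab) × Lab => q.1.2) := Poly.snd (Poly.fst Poly.id)
  have hy : Poly (fun q : (List TG.Cl × Lab) × Lab => q.2) := Poly.snd Poly.id
  have x1 := Poly.fst hx
  have x2 := Poly.fst (Poly.snd hx)
  have x3 := Poly.snd (Poly.snd hx)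
  have y1 := Poly.fst hy
  have y2 := Poly.fst (Poly.snd hy)
  have y3 := Poly.snd (Poly.snd hy)
  have hL : Poly (fun q : (List TG.Cl × Lab) × Lab => 3 * (3 * q.1.1.length)) :=
    pmul (pc 3) (pmul (pc 3) (Poly.length hφ))
  unfold adjD
  refine Poly.or ?_ (Poly.or ?_ (Poly.or ?_ ?_))
  · exact Poly.and (Poly.decide_eq x1 (pc 0)) (Poly.and (Poly.decide_eq y1 (pc 0))
      (Poly.and (Poly.decide_eq x2 y2) (Poly.or (Poly.decide_eq y3 (padd x3 (pc 1)))
        (Poly.and (Poly.decide_eq y3 (pc 0)) (Poly.decide_eq (padd x3 (pc 1)) hL)))))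
  · exact Poly.and (Poly.decide_eq x1 (pc 1)) (Poly.and (Poly.decide_eq y1 (pc 1))
      (Poly.and (Poly.decide_eq x2 y2) (Poly.decide_eq y3 (padd x3 (pc 1)))))
  · exact Poly.and (Poly.decide_eq x1 (pc 2)) (Poly.and (Poly.decide_eq y1 (pc 1))
      (Poly.and (Poly.decide_eq y3 (pc 0)) (Poly.decide_eq (TG.poly_divc y2 3) x2)))
  · exact Poly.and (Poly.decide_eq x1 (pc 1)) (Poly.and (Poly.decide_eq x3 (pc 2))
      (Poly.and (Poly.decide_eq y1 (pc 0)) (Poly.and (Poly.decide_eq y2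
        (Poly.snd (TG.poly_ocf hφ x2))) (Poly.decide_eq y3 (prd_poly hφ x2)))))

theorem mD_poly : Poly mD := by
  unfold mD
  exact mat_poly (adj := fun (φ : List TG.Cl) => adjD φ) vsD_poly adjD_poly

theorem pD_poly : Poly pD := by
  have hn : Poly (fun φ : List TG.Cl => 3 * φ.length) := pmul (pc 3) (Poly.length Poly.id)
  unfold pD
  exact padd (pmul hn hn) hn

theorem redD_poly (s : ℕ) : Poly (redD s) := by
  have h1 : Poly (fun φ => regM s (2 * (s + 1)) (gf s) (mD φ)) :=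
    (regM_poly s (2 * (s + 1)) (gf s) (gf_poly s)).comp mD_poly
  unfold redD
  exact Poly.pair h1 (psub (Poly.length h1) (padd (pmul (pc 2) pD_poly)
    (pmul (pc 2) ((numF_poly s).comp mD_poly))))

end Pool.Agent.Q224.KI
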