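import Pool.Agent.Q224.KI.Gad

/-!
Regularisation, on the level of adjacency matrices
-/

set_option autoImplicit false
set_option linter.unusedSectionVars false

namespace Pool.Agent.Q224.KI

open Pool.Agent.NPC Pool.Agent.H622R2 Q229

/-- labels -/
abbrev Lab : Type := ℕ × ℕ × ℕ

/-- the labels of the fillers -/
def fil (r g : ℕ) (M : List (List Bool)) : List Lab :=
  (List.range g).flatMap fun w => (List.range M.length).flatMap fun v =>
    (List.range (r - TDS.degL M v)).map fun f => (1 + w, v, f)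

/-- all labels -/
def vsR (r g : ℕ) (M : List (List Bool)) : List Lab := block 0 2 M.length ++ fil r g M

/-- adjacency of labels -/
def adjR (γ : ℕ → ℕ → Bool) (M : List (List Bool)) (x y : Lab) : Bool :=
  (decide (x.1 = 0) && (decide (y.1 = 0) && (decide (x.2.1 = y.2.1) && adjT M x.2.2 y.2.2))) ||
  ((decide (x.1 = 0) && (decide (0 < y.1) && (decide (y.2.1 = x.2.2) &&
    decide (y.1 = x.2.1 + 1)))) ||
  (decide (0 < x.1) && (decide (0 < y.1) && (decide (x.2.1 = y.2.1) && (decide (x.2.2 = y.2.2) &&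
    γ (x.1 - 1) (y.1 - 1))))))

/-- the matrix of the regularised graph -/
def regM (r g : ℕ) (γ : ℕ → ℕ → Bool) (M : List (List Bool)) : List (List Bool) :=
  mat (vsR r g M) (adjR γ M)

/-- the number of fillers -/
def numF (r : ℕ) (M : List (List Bool)) : ℕ :=
  ((List.range M.length).map fun v => r - TDS.degL M v).sum

theorem fil_poly (r g : ℕ) : Poly (fil r g) := by
  unfold fil
  refine Poly.flatMap (F := fun (M : List (List Bool)) w => (List.range M.length).flatMap fun v =>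
    (List.range (r - TDS.degL M v)).map fun f => (1 + w, v, f)) (pc (List.range g)) ?_
  refine Poly.flatMap (F := fun (q : List (List Bool) × ℕ) v =>
    (List.range (r - TDS.degL q.1 v)).map fun f => (1 + q.2, v, f))
    (Poly.range_length (Poly.fst Poly.id)) ?_
  have hM : Poly (fun q : (List (List Bool) × ℕ) × ℕ => q.1.1) := Poly.fst (Poly.fst Poly.id)
  have hv : Poly (fun q : (List (List Bool) × ℕ) × ℕ => q.2) := Poly.snd Poly.id
  refine pmap (F := fun (q : (List (List Bool) × ℕ) × ℕ) f => (1 + q.1.2, q.2, f)) ?_ ?_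
  · exact (UPoly.of_le (psub (pc r) (TDS.degL_poly hM hv)) (UPoly.const r)
      (fun q => Nat.sub_le _ _)).range
  · exact Poly.pair (padd (pc 1) (Poly.snd (Poly.fst (Poly.fst Poly.id))))
      (Poly.pair (Poly.snd (Poly.fst Poly.id)) (Poly.snd Poly.id))

theorem vsR_poly (r g : ℕ) : Poly (vsR r g) := by
  unfold vsR
  exact Poly.append (block_poly 0 (UPoly.const 2) (UPoly.length Poly.id)) (fil_poly r g)

theorem regM_poly (r g : ℕ) (γ : ℕ → ℕ → Bool) (hγ : Poly (fun p : ℕ × ℕ => γ p.1 p.2)) :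
    Poly (regM r g γ) := by
  unfold regM
  refine mat_poly (adj := fun (M : List (List Bool)) => adjR γ M) (vsR_poly r g) ?_
  have hM : Poly (fun q : (List (List Bool) × Lab) × Lab => q.1.1) := Poly.fst (Poly.fst Poly.id)
  have hx : Poly (fun q : (List (List Bool) × Lab) × Lab => q.1.2) := Poly.snd (Poly.fst Poly.id)
  have hy : Poly (fun q : (List (List Bool) × Lab) × Lab => q.2) := Poly.snd Poly.id
  have x1 := Poly.fst hx
  have x2 := Poly.fst (Poly.snd hx)
  have x3 := Poly.snd (Poly.snd hx)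
  have y1 := Poly.fst hy
  have y2 := Poly.fst (Poly.snd hy)
  have y3 := Poly.snd (Poly.snd hy)
  unfold adjR
  refine Poly.or (Poly.and (Poly.decide_eq x1 (pc 0)) (Poly.and (Poly.decide_eq y1 (pc 0))
    (Poly.and (Poly.decide_eq x2 y2) (adjT_poly hM x3 y3)))) (Poly.or ?_ ?_)
  · exact Poly.and (Poly.decide_eq x1 (pc 0)) (Poly.and (Poly.decide_lt (pc 0) y1)
      (Poly.and (Poly.decide_eq y2 x3) (Poly.decide_eq y1 (padd x2 (pc 1)))))
  · refine Poly.and (Poly.decide_lt (pc 0) x1) (Poly.and (Poly.decide_lt (pc 0) y1)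
      (Poly.and (Poly.decide_eq x2 y2) (Poly.and (Poly.decide_eq x3 y3) ?_)))
    exact hγ.comp (Poly.pair (psub x1 (pc 1)) (psub y1 (pc 1)))

theorem numF_poly (r : ℕ) : Poly (numF r) := by
  unfold numF
  exact Poly.sum (pmap (F := fun (M : List (List Bool)) v => r - TDS.degL M v)
    (Poly.range_length Poly.id)
    (psub (pc r) (TDS.degL_poly (Poly.fst Poly.id) (Poly.snd Poly.id))))

section Iso

variable (r g : ℕ) (γ : ℕ → ℕ → Bool) (M : List (List Bool))

/-- number of fillers of a vertex -/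
def dd (v : Fin M.length) : ℕ := r - TDS.degL M v

/-- the label of a vertex -/
def labR : RV g (dd r M) → Lab
  | Sum.inl x => (0, x.2.toNat, x.1)
  | Sum.inr q => (1 + q.2, q.1.1, q.1.2)

theorem labR_inj : Function.Injective (labR r g M) := by
  rintro (⟨v, b⟩ | ⟨⟨v, f⟩, w⟩) (⟨v', b'⟩ | ⟨⟨v', f'⟩, w'⟩) h <;>
    simp only [labR, Prod.mk.injEq] at h
  · have h1 : v = v' := Fin.ext h.2.2
    have h2 : b = b' := by
      revert h; cases b <;> cases b' <;> simp
    rw [h1, h2]
  · omega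
  · omega
  · have h1 : v = v' := Fin.ext h.2.1
    subst h1
    have h2 : f = f' := Fin.ext h.2.2
    have h3 : w = w' := Fin.ext (by omega)
    rw [h2, h3]

theorem mem_vsR (z : Lab) : z ∈ vsR r g M ↔ ∃ x, labR r g M x = z := by
  unfold vsR fil
  simp only [List.mem_append, mem_block, List.mem_flatMap, List.mem_range, List.mem_map]
  constructor
  · rintro (⟨h1, h2, h3⟩ | ⟨w, hw, v, hv, f, hf, rfl⟩)
    · obtain ⟨z1, z2, z3⟩ := z
      simp only at h1 h2 h3
      refine ⟨Sum.inl (⟨z3, h3⟩, decide (z2 = 1)), ?_⟩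
      simp only [labR, Prod.mk.injEq]
      refine ⟨h1.symm, ?_, trivial⟩
      have : z2 = 0 ∨ z2 = 1 := by omega
      rcases this with rfl | rfl <;> rfl
    · exact ⟨Sum.inr (⟨⟨v, hv⟩, ⟨f, hf⟩⟩, ⟨w, hw⟩), rfl⟩
  · rintro ⟨⟨v, b⟩ | ⟨⟨v, f⟩, w⟩, rfl⟩
    · left
      refine ⟨rfl, ?_, v.2⟩
      simp only [labR]
      cases b <;> simp
    · right
      exact ⟨w.1, w.2, v.1, v.2, f.1, f.2, rfl⟩

theorem vsR_nodup : (vsR r g M).Nodup := by
  unfold vsR
  refine block_append_nodup ?_ ?_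
  · unfold fil
    refine nodup_flatMap_of (fun z => z.1 - 1) List.nodup_range ?_ ?_
    · intro w _
      refine nodup_flatMap_of (fun z => z.2.1) List.nodup_range ?_ ?_
      · intro v _
        exact List.nodup_range.map (fun x y h => by simpa using h)
      · intro v _ z hz
        obtain ⟨f, _, rfl⟩ := List.mem_map.1 hz
        rfl
    · intro w _ z hz
      obtain ⟨v, _, hz⟩ := List.mem_flatMap.1 hz
      obtain ⟨f, _, rfl⟩ := List.mem_map.1 hz
      simp
  · intro z hz
    unfold fil at hz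
    obtain ⟨w, _, hz⟩ := List.mem_flatMap.1 hz
    obtain ⟨v, _, hz⟩ := List.mem_flatMap.1 hz
    obtain ⟨f, _, rfl⟩ := List.mem_map.1 hz
    simp

theorem adjR_iff (x1 x2 x3 y1 y2 y3 : ℕ) : adjR γ M (x1, x2, x3) (y1, y2, y3) = true ↔
    (x1 = 0 ∧ y1 = 0 ∧ x2 = y2 ∧ adjT M x3 y3 = true) ∨
    (x1 = 0 ∧ 0 < y1 ∧ y2 = x3 ∧ y1 = x2 + 1) ∨
    (0 < x1 ∧ 0 < y1 ∧ x2 = y2 ∧ x3 = y3 ∧ γ (x1 - 1) (y1 - 1) = true) := by
  unfold adjR
  simp only [Bool.or_eq_true, Bool.and_eq_true, decide_eq_true_eq]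

theorem regM_iso (hg : 2 ≤ g) :
    Nonempty (matGraph (regM r g γ M) ≃g RG (matGraph M) g (dd r M) (GG g γ) (at01 hg)) := by
  unfold regM
  refine matGraph_iso _ (vsR_nodup r g M) _ _ (labR r g M) (labR_inj r g M) (mem_vsR r g M) ?_
  have hat : ∀ (b : Bool) (w : Fin g), w = at01 hg b ↔ 1 + w.1 = b.toNat + 1 := by
    intro b w
    rw [Fin.ext_iff]
    cases b
    · rw [at01_f]; simp
    · rw [at01_t]; simp; omega
  rintro (⟨v, b⟩ | ⟨⟨v, f⟩, w⟩) (⟨v', b'⟩ | ⟨⟨v', f'⟩, w'⟩)
  · rw [rg_ll]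
    have hb : b.toNat = b'.toNat ↔ b = b' := by cases b <;> cases b' <;> simp
    have hb' : b'.toNat = b.toNat ↔ b = b' := by rw [eq_comm, hb]
    simp only [labR, adjR_iff, adjT_iff, hb, hb', (matGraph M).adj_comm v' v]
    constructor
    · rintro ⟨h1, h2⟩
      refine ⟨fun h => h2.ne ?_, Or.inl (Or.inl ⟨trivial, trivial, h1, h2⟩)⟩
      simp only [Sum.inl.injEq, Prod.mk.injEq] at h
      exact h.1
    · rintro ⟨-, (h | h | h) | (h | h | h)⟩
      · exact h.2.2
      · omega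
      · omega
      · exact h.2.2
      · omega
      · omega
  · rw [rg_lr, hat, Fin.ext_iff]
    simp only [labR, adjR_iff]
    constructor
    · rintro ⟨h1, h2⟩
      exact ⟨by simp, Or.inl (Or.inr (Or.inl ⟨trivial, by omega, h1, h2⟩))⟩
    · rintro ⟨-, (h | h | h) | (h | h | h)⟩
      · omega
      · exact h.2.2
      all_goals omega
  · rw [rg_rl, hat, Fin.ext_iff]
    simp only [labR, adjR_iff]
    constructor
    · rintro ⟨h1, h2⟩
      exact ⟨by simp, Or.inr (Or.inr (Or.inl ⟨trivial, by omega, h1, h2⟩))⟩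
    · rintro ⟨-, (h | h | h) | (h | h | h)⟩
      · omega
      · omega
      · omega
      · omega
      · exact h.2.2
      · omega
  · rw [rg_rr]
    simp only [labR, adjR_iff, Nat.add_sub_cancel_left]
    constructor
    · rintro ⟨h5, h6⟩
      have h7 : v = v' := congrArg (fun q : Pl (dd r M) => q.1) h5
      subst h7
      have h8 : f = f' := by
        have := h5
        simp only [Sigma.mk.injEq, true_and] at this
        exact eq_of_heq this
      subst h8
      refine ⟨fun h9 => h6.1 ?_, ?_⟩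
      · simp only [Sum.inr.injEq, Prod.mk.injEq, true_and] at h9
        exact h9
      · rcases h6.2 with h | h
        · exact Or.inl (Or.inr (Or.inr ⟨by omega, by omega, rfl, rfl, h⟩))
        · exact Or.inr (Or.inr (Or.inr ⟨by omega, by omega, rfl, rfl, h⟩))
    · rintro ⟨h5, h6⟩
      have h6' : v.1 = v'.1 ∧ f.1 = f'.1 ∧ (γ w.1 w'.1 = true ∨ γ w'.1 w.1 = true) := by
        rcases h6 with (h | h | h) | (h | h | h)
        · omega
        · omega
        · exact ⟨h.2.2.1, h.2.2.2.1, Or.inl h.2.2.2.2⟩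
        · omega
        · omega
        · exact ⟨h.2.2.1.symm, h.2.2.2.1.symm, Or.inr h.2.2.2.2⟩
      have h7 : v = v' := Fin.ext h6'.1
      subst h7
      have h8 : f = f' := Fin.ext h6'.2.1
      subst h8
      exact ⟨rfl, fun h9 => h5 (by rw [h9]), h6'.2.2⟩

theorem card_Pl : Fintype.card (Pl (dd r M)) = numF r M := by
  unfold numF
  rw [Fintype.card_sigma, TDS.sum_range_eq]
  simp only [Fintype.card_fin]
  rfl

end Iso

/-- the regularised graph is regular -/
theorem regM_reg {r g : ℕ} {γ : ℕ → ℕ → Bool} {M : List (List Bool)} (hg : 2 ≤ g)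
    (hM : ∀ v, nd (matGraph M) v ≤ r)
    (hΓ : ∀ w, nd (GG g γ) w + ((if w = at01 hg false then 1 else 0) +
      if w = at01 hg true then 1 else 0) = r) :
    ∀ v, nd (matGraph (regM r g γ M)) v = r := by
  obtain ⟨e⟩ := regM_iso r g γ M hg
  intro v
  rw [← nd_iso e]
  refine rg_reg _ _ _ (fun v => ?_) hΓ _
  have := hM v
  unfold dd
  rw [← nd_degL]
  omega

theorem regM_KI {k r p : ℕ} (hk : 1 ≤ k) (hr : k + 2 ≤ r) (M : List (List Bool)) :
    HasKI (matGraph (regM r (r + 1) gb M)) k (2 * p + (k + 1) * numF r M) ↔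
      HasKI (matGraph M) k p := by
  obtain ⟨e⟩ := regM_iso r (r + 1) gb M (by omega)
  rw [hasKI_iso_iff e, ← card_Pl, reg_KI _ _ hk hr]

theorem regM_Dom {s p : ℕ} (hs : 3 ≤ s) (M : List (List Bool)) :
    HasDom (matGraph (regM s (2 * (s + 1)) (gf s) M)) (2 * p + 2 * numF s M) ↔
      HasDom (matGraph M) p := by
  obtain ⟨e⟩ := regM_iso s (2 * (s + 1)) (gf s) M (by omega)
  rw [hasDom_iso_iff e, ← card_Pl, reg_Dom _ _ hs]

theorem gb_poly : Poly (fun p : ℕ × ℕ => gb p.1 p.2) := by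
  unfold gb
  exact Poly.not (Poly.and (Poly.decide_le (Poly.fst Poly.id) (pc 1))
    (Poly.decide_le (Poly.snd Poly.id) (pc 1)))

theorem gf_poly (s : ℕ) : Poly (fun p : ℕ × ℕ => gf s p.1 p.2) := by
  have h1 : Poly (fun p : ℕ × ℕ => p.1) := Poly.fst Poly.id
  have h2 : Poly (fun p : ℕ × ℕ => p.2) := Poly.snd Poly.id
  unfold gf
  refine Poly.or (Poly.and (Poly.decide_le h1 (pc s)) (Poly.and (Poly.and (Poly.decide_le h2 (pc s))
    (Poly.not (Poly.and (Poly.decide_le h1 (pc 1)) (Poly.decide_eq h2 (pc 2)))))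
    (Poly.not (Poly.and (Poly.decide_le h2 (pc 1)) (Poly.decide_eq h1 (pc 2)))))) (Poly.or ?_ ?_)
  · exact Poly.and (Poly.decide_lt (pc s) h1) (Poly.and (Poly.decide_lt (pc s) h2)
      (Poly.not (Poly.and (Poly.decide_le h1 (pc (s + 2))) (Poly.decide_le h2 (pc (s + 2))))))
  · exact Poly.and (Poly.decide_eq h1 (pc 2)) (Poly.and (Poly.decide_lt (pc s) h2)
      (Poly.decide_le h2 (pc (s + 2))))

end Pool.Agent.Q224.KI
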